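import Pool.Agent.K4H70.CH.Mean

/-!
Almost invariant means on infinite dihedral groups.
-/

set_option autoImplicit false

open scoped Classical

namespace Pool.Agent.K4H70.CH

variable {Γ : Type} [Group Γ]

/-- the average over a long segment -/
noncomputable def av (f b : Γ) (N : ℕ) : Mn Γ :=
  (2 * (2 * (N : ℝ) + 1))⁻¹ • ∑ k ∈ Finset.Icc (-(N : ℤ)) N, (dir ((f * b) ^ k) + dir ((f * b) ^ k * f))

lemma av_apply (f b : Γ) (N : ℕ) (φ : Γ → ℝ) : av f b N φ =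
    (2 * (2 * (N : ℝ) + 1))⁻¹ * ∑ k ∈ Finset.Icc (-(N : ℤ)) N,
      (φ ((f * b) ^ k) + φ ((f * b) ^ k * f)) := by
  unfold av
  simp only [LinearMap.smul_apply, LinearMap.sum_apply, LinearMap.add_apply, dir_apply, smul_eq_mul]

lemma card_Icc (N : ℕ) : ((Finset.Icc (-(N : ℤ)) N).card : ℝ) = 2 * N + 1 := by
  rw [Int.card_Icc]
  have : ((N : ℤ) + 1 - -(N : ℤ)).toNat = 2 * N + 1 := by omega
  rw [this]
  push_cast
  ring

lemma av_mean (f b : Γ) (N : ℕ) : IsMean (av f b N) := by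
  have hp : (0 : ℝ) < 2 * (2 * (N : ℝ) + 1) := by positivity
  refine ⟨?_, fun φ C hφ => ?_⟩
  · rw [av_apply]
    simp only [Finset.sum_const, nsmul_eq_mul, card_Icc]
    field_simp
    norm_num
  · rw [av_apply, abs_mul, abs_inv, abs_of_pos hp]
    have h1 : |∑ k ∈ Finset.Icc (-(N : ℤ)) N, (φ ((f * b) ^ k) + φ ((f * b) ^ k * f))| ≤
        2 * (2 * (N : ℝ) + 1) * C := by
      refine (Finset.abs_sum_le_sum_abs _ _).trans ?_
      have h2 : ∀ k ∈ Finset.Icc (-(N : ℤ)) N, |φ ((f * b) ^ k) + φ ((f * b) ^ k * f)| ≤ 2 * C := by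
        intro k _
        have h3 := hφ ((f * b) ^ k)
        have h4 := hφ ((f * b) ^ k * f)
        have h5 := abs_add_le (φ ((f * b) ^ k)) (φ ((f * b) ^ k * f))
        linarith
      refine (Finset.sum_le_sum h2).trans ?_
      rw [Finset.sum_const, nsmul_eq_mul, card_Icc]
      linarith
    calc (2 * (2 * (N : ℝ) + 1))⁻¹ * |∑ k ∈ Finset.Icc (-(N : ℤ)) N,
          (φ ((f * b) ^ k) + φ ((f * b) ^ k * f))|
        ≤ (2 * (2 * (N : ℝ) + 1))⁻¹ * (2 * (2 * (N : ℝ) + 1) * C) :=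
          mul_le_mul_of_nonneg_left h1 (by positivity)
      _ = C := by field_simp

lemma av_Sp {S : Subgroup Γ} {f b : Γ} (hf : f ∈ S) (hb : b ∈ S) (N : ℕ) :
    av f b N ∈ Sp (S : Set Γ) := by
  unfold av
  refine Submodule.smul_mem _ _ (Submodule.sum_mem _ fun k _ => Submodule.add_mem _ ?_ ?_)
  · exact dir_Sp (S.zpow_mem (S.mul_mem hf hb) k)
  · exact dir_Sp (S.mul_mem (S.zpow_mem (S.mul_mem hf hb) k) hf)

section

variable {f b : Γ} (hf : f * f = 1) (hb : b * b = 1)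

include hf hb

lemma flip_zpow (k : ℤ) : f * (f * b) ^ k = (f * b) ^ (-k) * f := by
  have hf' : f⁻¹ = f := inv_eq_of_mul_eq_one_left hf
  have hb' : b⁻¹ = b := inv_eq_of_mul_eq_one_left hb
  have h1 : f * (f * b) * f⁻¹ = (f * b)⁻¹ := by
    rw [mul_inv_rev, hf', hb', ← mul_assoc, hf, one_mul]
  have h2 : f * (f * b) ^ k * f⁻¹ = ((f * b)⁻¹) ^ k := by
    rw [← h1]
    exact conj_zpow.symm
  rw [inv_zpow', hf'] at h2
  rw [← h2, mul_assoc _ f f, hf, mul_one]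

omit hb in
lemma av_right_f (N : ℕ) : cv (av f b N) (dir f) = av f b N := by
  apply LinearMap.ext
  intro φ
  rw [cv_apply, av_apply, av_apply]
  simp only [dir_apply, mul_assoc, hf, mul_one]
  congr 1
  exact Finset.sum_congr rfl fun k _ => add_comm _ _

lemma av_left_f (N : ℕ) : cv (dir f) (av f b N) = av f b N := by
  apply LinearMap.ext
  intro φ
  rw [cv_apply, dir_apply, av_apply, av_apply]
  congr 1
  refine Finset.sum_equiv (Equiv.neg ℤ) (fun k => ?_) fun k _ => ?_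
  · simp only [Finset.mem_Icc, Equiv.neg_apply]
    omega
  · rw [Equiv.neg_apply, ← mul_assoc, flip_zpow hf hb k, mul_assoc, hf, mul_one, add_comm]

omit hf hb in
lemma tel (N : ℕ) {φ : ℤ → ℝ} {C : ℝ} (h : ∀ k, |φ k| ≤ C) :
    |∑ k ∈ Finset.Icc (-(N : ℤ)) N, φ (k + 1) - ∑ k ∈ Finset.Icc (-(N : ℤ)) N, φ k| ≤ 2 * C := by
  have h1 : ∑ k ∈ Finset.Icc (-(N : ℤ)) N, φ (k + 1) - ∑ k ∈ Finset.Icc (-(N : ℤ)) N, φ k =
      φ (N + 1) - φ (-N) := by
    induction N with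
    | zero => simp
    | succ N ih =>
      have h2 : Finset.Icc (-((N + 1 : ℕ) : ℤ)) (N + 1 : ℕ) =
          insert (-((N + 1 : ℕ) : ℤ)) (insert ((N + 1 : ℕ) : ℤ) (Finset.Icc (-(N : ℤ)) N)) := by
        ext k
        simp only [Finset.mem_Icc, Finset.mem_insert]
        push_cast
        omega
      have h3 : (-((N + 1 : ℕ) : ℤ)) ∉ insert ((N + 1 : ℕ) : ℤ) (Finset.Icc (-(N : ℤ)) N) := by
        simp only [Finset.mem_Icc, Finset.mem_insert]
        push_cast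
        omega
      have h4 : ((N + 1 : ℕ) : ℤ) ∉ Finset.Icc (-(N : ℤ)) N := by
        simp only [Finset.mem_Icc]
        push_cast
        omega
      rw [h2, Finset.sum_insert h3, Finset.sum_insert h4, Finset.sum_insert h3,
        Finset.sum_insert h4]
      have e1 : (-((N + 1 : ℕ) : ℤ)) + 1 = -N := by push_cast; ring
      have e2 : ((N + 1 : ℕ) : ℤ) = N + 1 := by push_cast; ring
      rw [e1, e2]
      linarith
  rw [h1]
  have h2 := h (N + 1)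
  have h3 := h (-N)
  have h4 := abs_sub (φ (N + 1)) (φ (-N))
  linarith

omit hf hb in
lemma tel' (N : ℕ) {φ : ℤ → ℝ} {C : ℝ} (h : ∀ k, |φ k| ≤ C) :
    |∑ k ∈ Finset.Icc (-(N : ℤ)) N, φ (k - 1) - ∑ k ∈ Finset.Icc (-(N : ℤ)) N, φ k| ≤ 2 * C := by
  have h1 := tel N (φ := fun k => φ (k - 1)) (C := C) fun k => h _
  simp only [add_sub_cancel_right] at h1
  rw [abs_sub_comm]
  exact h1

omit hf hb in
lemma coef_le (N : ℕ) {C : ℝ} (hC : 0 ≤ C) :
    (2 * (2 * (N : ℝ) + 1))⁻¹ * (4 * C) ≤ 2 / (N + 1) * C := by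
  have h1 : (0 : ℝ) ≤ N := Nat.cast_nonneg N
  rw [inv_mul_eq_div, div_mul_eq_mul_div, div_le_div_iff₀ (by positivity) (by positivity)]
  nlinarith [mul_nonneg h1 hC]

omit [Group Γ] hf hb in
lemma nonneg_of_bd [Nonempty Γ] {φ : Γ → ℝ} {C : ℝ} (h : ∀ x, |φ x| ≤ C) : 0 ≤ C :=
  (abs_nonneg _).trans (h (Classical.arbitrary Γ))

omit hf hb in
lemma av_left_t : Asy (fun N => cv (dir (f * b)) (av f b N)) (av f b) := by
  refine ⟨2, by norm_num, fun N φ C hφ => ?_⟩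
  have hC : 0 ≤ C := nonneg_of_bd hφ
  rw [cv_apply, dir_apply, av_apply, av_apply, ← mul_sub, abs_mul, abs_inv,
    abs_of_pos (by positivity : (0 : ℝ) < 2 * (2 * (N : ℝ) + 1))]
  suffices h0 : |∑ k ∈ Finset.Icc (-(N : ℤ)) N,
      (φ (f * b * (f * b) ^ k) + φ (f * b * ((f * b) ^ k * f))) -
      ∑ k ∈ Finset.Icc (-(N : ℤ)) N, (φ ((f * b) ^ k) + φ ((f * b) ^ k * f))| ≤ 4 * C from
    le_trans (mul_le_mul_of_nonneg_left h0 (by positivity)) (coef_le N hC)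
  have h1 := tel N (φ := fun k => φ ((f * b) ^ k) + φ ((f * b) ^ k * f)) (C := 2 * C) fun k => by
    have h3 := hφ ((f * b) ^ k)
    have h4 := hφ ((f * b) ^ k * f)
    have h5 := abs_add_le (φ ((f * b) ^ k)) (φ ((f * b) ^ k * f))
    linarith
  have h2 : ∀ k : ℤ, φ (f * b * (f * b) ^ k) + φ (f * b * ((f * b) ^ k * f)) =
      φ ((f * b) ^ (k + 1)) + φ ((f * b) ^ (k + 1) * f) := by
    intro k
    rw [zpow_add_one, ← mul_assoc, (Commute.self_zpow (f * b) k).eq]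
  simp only [h2]
  linarith

lemma av_left_b : Asy (fun N => cv (dir b) (av f b N)) (av f b) := by
  have h1 : ∀ N, cv (dir b) (av f b N) = cv (dir f) (cv (dir (f * b)) (av f b N)) := by
    intro N
    rw [← cv_assoc, dir_cv_dir, ← mul_assoc, hf, one_mul]
  have h2 := Asy.cv_right (μ := fun _ => dir f) (fun _ => IsMean.dir f) (av_left_t (f := f) (b := b))
  refine (Asy.of_eq h1).trans (h2.trans (Asy.of_eq fun N => ?_))
  exact av_left_f hf hb N

lemma av_right_b : Asy (fun N => cv (av f b N) (dir b)) (av f b) := by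
  refine ⟨2, by norm_num, fun N φ C hφ => ?_⟩
  have hC : 0 ≤ C := nonneg_of_bd hφ
  rw [cv_apply, av_apply, av_apply, ← mul_sub, abs_mul, abs_inv,
    abs_of_pos (by positivity : (0 : ℝ) < 2 * (2 * (N : ℝ) + 1))]
  simp only [dir_apply]
  suffices h0 : |∑ k ∈ Finset.Icc (-(N : ℤ)) N,
      (φ ((f * b) ^ k * b) + φ ((f * b) ^ k * f * b)) -
      ∑ k ∈ Finset.Icc (-(N : ℤ)) N, (φ ((f * b) ^ k) + φ ((f * b) ^ k * f))| ≤ 4 * C from
    le_trans (mul_le_mul_of_nonneg_left h0 (by positivity)) (coef_le N hC)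
  have h1 := tel N (φ := fun k => φ ((f * b) ^ k)) (C := C) fun k => hφ _
  have h2 := tel' N (φ := fun k => φ ((f * b) ^ k * f)) (C := C) fun k => hφ _
  have h3 : ∀ k : ℤ, φ ((f * b) ^ k * b) + φ ((f * b) ^ k * f * b) =
      φ ((f * b) ^ (k - 1) * f) + φ ((f * b) ^ (k + 1)) := by
    intro k
    congr 2
    · have e1 : b = f * (f * b) := by rw [← mul_assoc, hf, one_mul]
      have e2 := flip_zpow hf hb (1 : ℤ)
      rw [zpow_one] at e2
      calc (f * b) ^ k * b = (f * b) ^ k * (f * (f * b)) := by rw [← e1]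
        _ = (f * b) ^ k * ((f * b) ^ (-1 : ℤ) * f) := by rw [e2]
        _ = (f * b) ^ (k - 1) * f := by rw [← mul_assoc, ← zpow_add]; rfl
    · rw [zpow_add_one, mul_assoc]
  simp only [h3, Finset.sum_add_distrib]
  have h4 := abs_add_le
    (∑ k ∈ Finset.Icc (-(N : ℤ)) N, φ ((f * b) ^ (k - 1) * f) -
      ∑ k ∈ Finset.Icc (-(N : ℤ)) N, φ ((f * b) ^ k * f))
    (∑ k ∈ Finset.Icc (-(N : ℤ)) N, φ ((f * b) ^ (k + 1)) -
      ∑ k ∈ Finset.Icc (-(N : ℤ)) N, φ ((f * b) ^ k))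
  have h5 : (∑ k ∈ Finset.Icc (-(N : ℤ)) N, φ ((f * b) ^ (k - 1) * f) -
      ∑ k ∈ Finset.Icc (-(N : ℤ)) N, φ ((f * b) ^ k * f)) +
      (∑ k ∈ Finset.Icc (-(N : ℤ)) N, φ ((f * b) ^ (k + 1)) -
      ∑ k ∈ Finset.Icc (-(N : ℤ)) N, φ ((f * b) ^ k)) =
      ∑ k ∈ Finset.Icc (-(N : ℤ)) N, φ ((f * b) ^ (k - 1) * f) +
      ∑ k ∈ Finset.Icc (-(N : ℤ)) N, φ ((f * b) ^ (k + 1)) -
      (∑ k ∈ Finset.Icc (-(N : ℤ)) N, φ ((f * b) ^ k) +
      ∑ k ∈ Finset.Icc (-(N : ℤ)) N, φ ((f * b) ^ k * f)) := by ring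
  rw [h5] at h4
  linarith

end

end Pool.Agent.K4H70.CH
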