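import Pool.Agent.K4H70.CH.Sub
import Pool.Agent.K4H70.SV.Euler

/-!
The characterisation.
-/

set_option autoImplicit false
set_option linter.unusedSectionVars false

open scoped Classical

namespace Pool.Agent.K4H70.CH

open Pool.Agent.W907.SG (W cox)
open Pool.Agent.Q134.SV
open Pool.Agent.K4H70.SV
open Pool.Agent.K4H70.SC

variable {V : Type} [Fintype V] {G : SimpleGraph V}

/-- if the class has norm zero, then the cycle bounds in the complex of labels -/
theorem bounds_of_normZero {m : ℕ} {z : (Fin (m + 1) → V) → ℝ} (hz : IsCyc (m + 1) G z)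
    {H : Subgroup (W G)} (hH : H.index ≠ 0) (hε : H ≤ (par G).ker)
    (h : NormZero (m + 1) (fund G H z)) :
    ∃ B : (Fin (m + 2) → V ⊕ V × V) → ℝ, Alt B ∧ (∀ v, B v ≠ 0 → GT G v) ∧
      ∀ y, ∑ x, B (Fin.cons x y) = zh z y := by
  have hfin := rc_finite hH
  have hpair : ∀ c, Good G (m + 1) c → pair (gen G) z c = 0 := by
    intro c hc
    obtain ⟨C, hC⟩ := hc.bdd
    have hC0 : 0 ≤ C := (abs_nonneg _).trans (hC fun _ => 1)
    by_contra hne
    have hcard : (0 : ℝ) < Nat.card (RC H) := by
      rw [Nat.cast_pos]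
      have : Nonempty (RC H) := ⟨rc H 1⟩
      exact Nat.card_pos
    set p := |(Nat.card (RC H) : ℝ) * pair (gen G) z c| with hp
    have hp0 : 0 < p := abs_pos.2 (mul_ne_zero hcard.ne' hne)
    obtain ⟨u, hu, hu'⟩ := h (p / (C + 1)) (by positivity)
    have h1 := hu' (fun g => c fun i => (g i : W G)) (fun k g => by
      simp only [Subgroup.coe_mul]
      rw [equiv_of_gen G hc.gen, MonoidHom.mem_ker.1 (hε k.2)]
      simp) (fun g => hc.coc fun i => (g i : W G))
    rw [fund_res hH hε hz hc.gen hc.coc] at h1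
    have h2 : p ≤ C * (u.sum fun _ r => |r|) := by
      rw [hp, ← h1]
      unfold Finsupp.sum
      refine (Finset.abs_sum_le_sum_abs _ _).trans ?_
      rw [Finset.mul_sum]
      refine Finset.sum_le_sum fun g _ => ?_
      rw [abs_mul, mul_comm C]
      exact mul_le_mul_of_nonneg_left (hC _) (abs_nonneg _)
    have h3 : C * (u.sum fun _ r => |r|) ≤ C * (p / (C + 1)) :=
      mul_le_mul_of_nonneg_left hu.le hC0
    have h4 : C * (p / (C + 1)) < p := by
      rw [← mul_div_assoc, div_lt_iff₀ (by positivity)]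
      nlinarith
    linarith
  refine dual2 (A := GT G) (fun v i j h => (GT.swap i j).2 h) (zh_alt fun v i j hij => hz.alt v i j hij)
    fun a ha hc => ?_
  have h2 := sum_zh z a
  simp only [smul_eq_mul] at h2
  rw [h2]
  by_contra h3
  obtain ⟨c, hc1, hc2⟩ := exists_good_of_labels hz ha hc h3
  exact hc2 (hpair c hc1)

/-- if the cycle bounds in the complex of labels, then the class has norm zero -/
theorem normZero_of_bounds {n : ℕ} {z : (Fin n → V) → ℝ}
    (hzs : ∀ s, z s ≠ 0 → ∀ i j, i ≠ j → G.Adj (s i) (s j))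
    {B : (Fin (n + 1) → V ⊕ V × V) → ℝ} (hB : Alt B) (hB' : ∀ v, B v ≠ 0 → GT G v)
    (hzB : ∀ y, ∑ x, B (Fin.cons x y) = zh z y)
    {H : Subgroup (W G)} (hH : H.index ≠ 0) (hε : H ≤ (par G).ker) :
    NormZero n (fund G H z) := by
  intro δ hδ
  have hfin := rc_finite hH
  have : Fintype (RC H) := Fintype.ofFinite _
  have hne : Nonempty (RC H) := ⟨rc H 1⟩
  set M : ℝ := (Fintype.card (RC H) : ℝ) with hM
  have hM0 : 0 < M := by
    rw [hM, Nat.cast_pos]
    exact Fintype.card_pos
  obtain ⟨u, hu, hu'⟩ := small_chains hzs hB hB' hzB (δ := δ / M) (by positivity)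
  let Φ : Dm H (n + 1) := ∑ q : RC H, ((par G q.out : ℤ) : ℝ) •
    ∑ x ∈ u.support, u x • ev1 fun i => toSub H (q.out * x i)
  have hΦ : ∀ F, Φ F = ∑ q : RC H, ((par G q.out : ℤ) : ℝ) *
      ∑ x ∈ u.support, u x * F fun i => toSub H (q.out * x i) := by
    intro F
    simp only [Φ, LinearMap.sum_apply, LinearMap.smul_apply, smul_eq_mul, ev1_apply]
  have hEV : Φ ∈ EV H (n + 1) := by
    refine Submodule.sum_mem _ fun q _ => Submodule.smul_mem _ _ (Submodule.sum_mem _ fun x _ =>
      Submodule.smul_mem _ _ (Submodule.subset_span ⟨_, rfl⟩))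
  have hpar : ∀ x : W G, |((par G x : ℤ) : ℝ)| = 1 := by
    intro x
    rcases Int.units_eq_one_or (par G x) with h | h <;> rw [h] <;> simp
  obtain ⟨v, hv, hv'⟩ := exists_chain hEV (η := M * (u.sum fun _ r => |r|)) fun F hF => by
    rw [hΦ]
    refine (Finset.abs_sum_le_sum_abs _ _).trans ?_
    have h1 : ∀ q ∈ (Finset.univ : Finset (RC H)), |((par G q.out : ℤ) : ℝ) *
        ∑ x ∈ u.support, u x * F fun i => toSub H (q.out * x i)| ≤ u.sum fun _ r => |r| := by
      intro q _
      rw [abs_mul, hpar, one_mul]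
      refine (Finset.abs_sum_le_sum_abs _ _).trans (Finset.sum_le_sum fun x _ => ?_)
      rw [abs_mul]
      exact mul_le_of_le_one_right (abs_nonneg _) (hF _)
    refine (Finset.sum_le_sum h1).trans (le_of_eq ?_)
    rw [Finset.sum_const, nsmul_eq_mul, Finset.card_univ]
  refine ⟨v, lt_of_le_of_lt hv ?_, fun c hc hc' => ?_⟩
  · calc M * (u.sum fun _ r => |r|) < M * (δ / M) := mul_lt_mul_of_pos_left hu hM0
      _ = δ := by field_simp
  · rw [hv', hΦ]
    have h1 := hu' (fun x : Fin (n + 1) → W G =>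
      ∑ q : RC H, ((par G q.out : ℤ) : ℝ) * c (fun i => toSub H (q.out * x i)))
      (fun s x => twisted_ind hε hc s x) (cobd_ind hc')
    unfold Finsupp.sum at h1
    have h2 : fund G H z c = pair (gen G) z fun x : Fin (n + 1) → W G =>
        ∑ q : RC H, ((par G q.out : ℤ) : ℝ) * c (fun i => toSub H (q.out * x i)) := by
      unfold fund pair
      rw [finsum_eq_sum_of_fintype]
      simp only [Finset.mul_sum]
      rw [Finset.sum_comm]
      exact Finset.sum_congr rfl fun s _ => Finset.sum_congr rfl fun q _ => by ring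
    rw [h2, ← h1]
    simp only [Finset.mul_sum]
    rw [Finset.sum_comm]
    exact Finset.sum_congr rfl fun x _ => Finset.sum_congr rfl fun q _ => by ring

/-! ### The graph of labels -/

/-- the ordered pairs of distinct nonadjacent vertices -/
abbrev NP (G : SimpleGraph V) : Type := {p : V × V // p.1 ≠ p.2 ∧ ¬ G.Adj p.1 p.2}

/-- the label of a vertex of the graph of labels -/
def io (l : V ⊕ NP G) : V ⊕ V × V := Sum.map id Subtype.val l

lemma io_inj : Function.Injective (io (G := G)) :=
  Sum.map_injective.2 ⟨Function.injective_id, Subtype.val_injective⟩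

lemma Va_io (l : V ⊕ NP G) : Va G (io l) := by
  rcases l with u | p
  · exact trivial
  · exact p.2

lemma exists_io {l : V ⊕ V × V} (h : Va G l) : ∃ l' : V ⊕ NP G, io l' = l := by
  rcases l with u | p
  · exact ⟨Sum.inl u, rfl⟩
  · exact ⟨Sum.inr ⟨p, h⟩, rfl⟩

/-- The graph `Ĝ`: its vertices are the vertices of `G` and the ordered pairs `(f, b)` of distinct
nonadjacent vertices of `G`. A vertex `u` is adjacent to `(f, b)` if `u = f` or `u = b` or `u` is
adjacent to both `f` and `b`; two pairs are adjacent if each member of one of them is adjacent to each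
member of the other. -/
def Hat (G : SimpleGraph V) : SimpleGraph (V ⊕ NP G) where
  Adj l l' := match l, l' with
    | Sum.inl u, Sum.inl w => G.Adj u w
    | Sum.inl u, Sum.inr p => u = p.1.1 ∨ u = p.1.2 ∨ (G.Adj u p.1.1 ∧ G.Adj u p.1.2)
    | Sum.inr p, Sum.inl u => u = p.1.1 ∨ u = p.1.2 ∨ (G.Adj u p.1.1 ∧ G.Adj u p.1.2)
    | Sum.inr p, Sum.inr q =>
      G.Adj p.1.1 q.1.1 ∧ G.Adj p.1.1 q.1.2 ∧ G.Adj p.1.2 q.1.1 ∧ G.Adj p.1.2 q.1.2
  symm := ⟨by
    rintro (u | p) (w | q) h
    · exact SimpleGraph.Adj.symm h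
    · exact h
    · exact h
    · exact ⟨h.1.symm, h.2.2.1.symm, h.2.1.symm, h.2.2.2.symm⟩⟩
  loopless := ⟨by
    rintro (u | p) h
    · exact h.ne rfl
    · exact h.1.ne rfl⟩

lemma hat_adj (l l' : V ⊕ NP G) : (Hat G).Adj l l' ↔ LA G (io l) (io l') := by
  rcases l with u | p <;> rcases l' with w | q <;> exact Iff.rfl

lemma GT_io {m : ℕ} {v : Fin m → V ⊕ NP G} :
    GT G (io ∘ v) ↔ ∀ i j, i ≠ j → (Hat G).Adj (v i) (v j) :=
  ⟨fun h i j hij => (hat_adj _ _).2 (h.2 i j hij),
    fun h => ⟨fun i => Va_io _, fun i j hij => (hat_adj _ _).1 (h i j hij)⟩⟩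

/-- the image of a chain of the flag complex of `G` in the flag complex of `Ĝ` -/
noncomputable def hatc {n : ℕ} (z : (Fin n → V) → ℝ) (y : Fin n → V ⊕ NP G) : ℝ := zh z (io ∘ y)

/-- the two forms of bounding -/
theorem bounds_iff {n : ℕ} (z : (Fin n → V) → ℝ) :
    (∃ B : (Fin (n + 1) → V ⊕ V × V) → ℝ, Alt B ∧ (∀ v, B v ≠ 0 → GT G v) ∧
      ∀ y, ∑ x, B (Fin.cons x y) = zh z y) ↔
    ∃ b : (Fin (n + 1) → V ⊕ NP G) → ℝ, LChain (Hat G) ∅ b ∧
      ∀ y, ∑ x, b (Fin.cons x y) = hatc (G := G) z y := by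
  constructor
  · rintro ⟨B, hB, hB', hzB⟩
    refine ⟨fun v => B (io ∘ v), ⟨fun v i k hik => ?_, fun v hv => ?_⟩, fun y => ?_⟩
    · exact hB (io ∘ v) i k hik
    · exact ⟨GT_io.1 (hB' _ hv), fun i u hu => by simp at hu⟩
    · unfold hatc
      rw [← hzB]
      refine Fintype.sum_of_injective io io_inj _ _ ?_ ?_
      · intro l hl
        by_contra h0
        obtain ⟨l', rfl⟩ := exists_io ((hB' _ h0).1 0)
        exact hl ⟨l', by simp⟩
      · intro l
        change B (io ∘ (Fin.cons l y : Fin (n + 1) → V ⊕ NP G)) = _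
        congr 1
        funext i
        refine Fin.cases ?_ (fun j => ?_) i <;> simp
  · rintro ⟨b, hb, hzb⟩
    let B : (Fin (n + 1) → V ⊕ V × V) → ℝ := fun t =>
      if h : ∃ t', io ∘ t' = t then b h.choose else 0
    have hBio : ∀ t' : Fin (n + 1) → V ⊕ NP G, B (io ∘ t') = b t' := by
      intro t'
      have h : ∃ t'', io ∘ t'' = io ∘ t' := ⟨t', rfl⟩
      simp only [B]
      rw [dif_pos h]
      congr 1
      exact io_inj.comp_left h.choose_spec
    have hB0 : ∀ t, B t ≠ 0 → ∃ t' : Fin (n + 1) → V ⊕ NP G, io ∘ t' = t := by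
      intro t ht
      by_contra h
      apply ht
      simp only [B]
      rw [dif_neg h]
    refine ⟨B, ?_, ?_, ?_⟩
    · intro t i j hij
      by_cases h : ∃ t' : Fin (n + 1) → V ⊕ NP G, io ∘ t' = t
      · obtain ⟨t', rfl⟩ := h
        have : (io ∘ t') ∘ Equiv.swap i j = io ∘ (t' ∘ Equiv.swap i j) := rfl
        rw [this, hBio, hBio]
        exact hb.alt t' i j hij
      · have h1 : B t = 0 := by
          by_contra h0
          exact h (hB0 _ h0)
        have h2 : B (t ∘ Equiv.swap i j) = 0 := by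
          by_contra h0
          obtain ⟨t', e⟩ := hB0 _ h0
          refine h ⟨t' ∘ Equiv.swap i j, ?_⟩
          rw [← Function.comp_assoc, e]
          funext k
          simp
        rw [h1, h2, neg_zero]
    · intro t ht
      obtain ⟨t', rfl⟩ := hB0 _ ht
      rw [hBio] at ht
      exact GT_io.2 (hb.supp _ ht).1
    · intro y
      by_cases h : ∃ y' : Fin n → V ⊕ NP G, io ∘ y' = y
      · obtain ⟨y', rfl⟩ := h
        have h1 := hzb y'
        unfold hatc at h1
        rw [← h1]
        symm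
        refine Fintype.sum_of_injective io io_inj _ _ ?_ ?_
        · intro l hl
          by_contra h0
          obtain ⟨t', e⟩ := hB0 _ h0
          refine hl ⟨t' 0, ?_⟩
          have := congrFun e 0
          simpa using this
        · intro l
          rw [← hBio]
          congr 1
          funext i
          refine Fin.cases ?_ (fun j => ?_) i <;> simp
      · have h1 : zh z y = 0 := by
          unfold zh
          rw [if_neg]
          intro hl
          refine h ⟨fun i => Sum.inl (lf (y i)), ?_⟩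
          funext i
          have h2 := hl i
          rcases hy : y i with u | p
          · simp [io, hy, lf]
          · rw [hy] at h2
            simp at h2
        rw [h1]
        refine Finset.sum_eq_zero fun l _ => ?_
        by_contra h0
        obtain ⟨t', e⟩ := hB0 _ h0
        refine h ⟨fun i => t' i.succ, ?_⟩
        funext i
        have := congrFun e i.succ
        simpa using this

lemma hatc_eq_push {n : ℕ} (z : (Fin n → V) → ℝ) (y : Fin n → V ⊕ NP G) :
    hatc z y = push (Sum.inl : V → V ⊕ NP G) z y := by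
  have hinl : Function.Injective fun s : Fin n → V => (Sum.inl ∘ s : Fin n → V ⊕ NP G) := by
    intro s t h
    funext i
    exact Sum.inl_injective (congrFun h i)
  unfold hatc push
  by_cases h : ∃ s : Fin n → V, Sum.inl ∘ s = y
  · obtain ⟨s, rfl⟩ := h
    have h1 : (io ∘ (Sum.inl ∘ s : Fin n → V ⊕ NP G)) = Sum.inl ∘ s := rfl
    rw [h1, zh_inl, Finset.sum_eq_single s]
    · rw [if_pos rfl]
    · intro t _ ht
      rw [if_neg fun e => ht (hinl e)]
    · intro h'
      exact absurd (Finset.mem_univ _) h'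
  · rw [Finset.sum_eq_zero]
    · unfold zh
      rw [if_neg]
      intro hl
      refine h ⟨fun i => lf (io (y i)), ?_⟩
      funext i
      have h2 := hl i
      rcases hy : y i with u | p
      · simp [io, hy, lf]
      · simp only [Function.comp_apply, hy] at h2
        simp [io] at h2
    · intro s _
      rw [if_neg fun e => h ⟨s, e⟩]

/-- **Theorem.** -/
theorem characterisation {m : ℕ} {z : (Fin (m + 1) → V) → ℝ} (hz : IsCyc (m + 1) G z)
    {H : Subgroup (W G)} (hH : H.index ≠ 0) (hε : H ≤ (par G).ker) :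
    NormZero (m + 1) (fund G H z) ↔
      ∃ b : (Fin (m + 2) → V ⊕ NP G) → ℝ, LChain (Hat G) ∅ b ∧
        ∀ y, ∑ x, b (Fin.cons x y) = hatc (G := G) z y := by
  rw [← bounds_iff]
  constructor
  · exact bounds_of_normZero hz hH hε
  · rintro ⟨B, hB, hB', hzB⟩
    exact normZero_of_bounds hz.supp hB hB' hzB hH hε

end Pool.Agent.K4H70.CH
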