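import Pool.Agent.K4H70.CH.Lm
import Pool.Agent.K4H70.SV.Cap

/-!
Bounded cocycles pair trivially with the cycles which bound in the complex of labels.
-/

set_option autoImplicit false
set_option linter.unusedSectionVars false

open scoped Classical

namespace Pool.Agent.K4H70.CH

open Pool.Agent.W907.SG (W cox)
open Pool.Agent.Q134.SV
open Pool.Agent.K4H70.SV

section Sets

variable {Λ : Type} [DecidableEq Λ]

/-- the flag of a tuple -/
noncomputable def fs {m : ℕ} (t : Fin m → Λ) (k : Fin (m + 1)) : Finset Λ :=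
  (Finset.univ.filter fun j : Fin m => j.castSucc < k).image t

lemma mem_fs {m : ℕ} {t : Fin m → Λ} {k : Fin (m + 1)} {l : Λ} :
    l ∈ fs t k ↔ ∃ j : Fin m, j.castSucc < k ∧ t j = l := by
  unfold fs
  simp

lemma fs_zero {m : ℕ} (t : Fin m → Λ) : fs t 0 = ∅ := by
  ext l
  simp [mem_fs]

lemma fs_cons_succ {m : ℕ} (l : Λ) (y : Fin m → Λ) (k : Fin (m + 1)) :
    fs (Fin.cons l y : Fin (m + 1) → Λ) k.succ = insert l (fs y k) := by
  ext x
  rw [mem_fs, Finset.mem_insert, mem_fs]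
  constructor
  · rintro ⟨j, hj, rfl⟩
    induction j using Fin.cases with
    | zero => exact Or.inl rfl
    | succ j => exact Or.inr ⟨j, by
        rw [← Fin.succ_castSucc, Fin.succ_lt_succ_iff] at hj
        exact hj, rfl⟩
  · rintro (rfl | ⟨j, hj, rfl⟩)
    · exact ⟨0, by simp, rfl⟩
    · exact ⟨j.succ, by rw [← Fin.succ_castSucc, Fin.succ_lt_succ_iff]; exact hj, by simp⟩

lemma fs_snoc {m : ℕ} (y : Fin m → Λ) (l : Λ) (k : Fin (m + 1)) :
    fs (Fin.snoc y l : Fin (m + 1) → Λ) k.castSucc = fs y k := by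
  ext x
  rw [mem_fs, mem_fs]
  constructor
  · rintro ⟨j, hj, rfl⟩
    induction j using Fin.lastCases with
    | last =>
      exfalso
      rw [Fin.castSucc_lt_castSucc_iff] at hj
      have := Fin.le_last k
      exact absurd hj (not_lt.2 this)
    | cast j =>
      rw [Fin.castSucc_lt_castSucc_iff] at hj
      exact ⟨j, hj, by simp⟩
  · rintro ⟨j, hj, rfl⟩
    exact ⟨j.castSucc, by rw [Fin.castSucc_lt_castSucc_iff]; exact hj, by simp⟩

lemma fs_swap {m : ℕ} (t : Fin m → Λ) {a b : Fin m} {k : Fin (m + 1)}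
    (h : a.castSucc < k ↔ b.castSucc < k) : fs (t ∘ Equiv.swap a b) k = fs t k := by
  have key : ∀ j : Fin m, j.castSucc < k → (Equiv.swap a b j).castSucc < k := by
    intro j hj
    rcases eq_or_ne j a with rfl | hja
    · rw [Equiv.swap_apply_left]; exact h.1 hj
    · rcases eq_or_ne j b with rfl | hjb
      · rw [Equiv.swap_apply_right]; exact h.2 hj
      · rwa [Equiv.swap_apply_of_ne_of_ne hja hjb]
  ext x
  rw [mem_fs, mem_fs]
  constructor
  · rintro ⟨j, hj, rfl⟩
    exact ⟨Equiv.swap a b j, key j hj, rfl⟩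
  · rintro ⟨j, hj, rfl⟩
    exact ⟨Equiv.swap a b j, key j hj, by simp⟩

end Sets

variable {V : Type} {G : SimpleGraph V}

lemma LA_irrefl (l : V ⊕ V × V) : ¬ LA G l l := by
  rcases l with u | p
  · exact fun h => h.ne rfl
  · exact fun h => h.1.ne rfl

lemma GT_inj {m : ℕ} {t : Fin m → V ⊕ V × V} (h : GT G t) : Function.Injective t := by
  intro i j hij
  by_contra hne
  have := h.2 i j hne
  rw [hij] at this
  exact LA_irrefl _ this

lemma GT_ca {m : ℕ} {t : Fin m → V ⊕ V × V} (h : GT G t) (k : Fin (m + 1)) : Ca G (fs t k) := by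
  intro l hl l' hl' hne
  obtain ⟨i, _, rfl⟩ := mem_fs.1 hl
  obtain ⟨j, _, rfl⟩ := mem_fs.1 hl'
  exact h.2 i j fun e => hne (by rw [e])

lemma GT_tail {m : ℕ} {l : V ⊕ V × V} {y : Fin m → V ⊕ V × V}
    (h : GT G (Fin.cons l y : Fin (m + 1) → V ⊕ V × V)) : GT G y :=
  ⟨fun i => by simpa using h.1 i.succ, fun i j hij => by
    simpa using h.2 i.succ j.succ fun e => hij (Fin.succ_injective _ e)⟩

lemma GT_head {m : ℕ} {l : V ⊕ V × V} {y : Fin m → V ⊕ V × V}
    (h : GT G (Fin.cons l y : Fin (m + 1) → V ⊕ V × V)) (k : Fin (m + 1)) : l ∉ fs y k := by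
  intro hl
  obtain ⟨j, _, e⟩ := mem_fs.1 hl
  have := GT_inj h (a₁ := 0) (a₂ := j.succ) (by simp [e])
  exact (Fin.succ_ne_zero j) this.symm

variable (G) in
/-- the means of a flag -/
noncomputable def fl {m : ℕ} (t : Fin m → V ⊕ V × V) (N : ℕ) (k : Fin (m + 1)) : Mn (W G) :=
  xs G (fs t k) N

lemma fl_mean {m : ℕ} (t : Fin m → V ⊕ V × V) (N : ℕ) (k : Fin (m + 1)) : IsMean (fl G t N k) :=
  xs_mean _ _

/-- convergence with a rate -/
def Lim (a : ℕ → ℝ) (r : ℝ) : Prop := ∃ K : ℝ, ∀ N : ℕ, |a N - r| ≤ K / (N + 1)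

lemma Lim.unique_zero {r : ℝ} (h : Lim (fun _ => r) 0) : r = 0 := by
  obtain ⟨K, hK⟩ := h
  by_contra hr
  have hr' : 0 < |r| := abs_pos.2 hr
  obtain ⟨N, hN⟩ := exists_nat_gt (K / |r|)
  have h1 := hK N
  rw [sub_zero, le_div_iff₀ (by positivity)] at h1
  rw [div_lt_iff₀ hr'] at hN
  nlinarith

lemma Lim.congr {a b : ℕ → ℝ} {r : ℝ} (h : Lim a r) (e : ∀ N, a N = b N) : Lim b r := by
  obtain ⟨K, hK⟩ := h
  exact ⟨K, fun N => by rw [← e]; exact hK N⟩

lemma Lim.add {a b : ℕ → ℝ} {r s : ℝ} (h : Lim a r) (h' : Lim b s) :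
    Lim (fun N => a N + b N) (r + s) := by
  obtain ⟨K, hK⟩ := h
  obtain ⟨K', hK'⟩ := h'
  refine ⟨K + K', fun N => ?_⟩
  rw [add_div]
  have h1 := abs_add_le (a N - r) (b N - s)
  have h2 : a N + b N - (r + s) = (a N - r) + (b N - s) := by ring
  rw [h2]
  linarith [hK N, hK' N]

lemma Lim.mul {a : ℕ → ℝ} {r : ℝ} (c : ℝ) (h : Lim a r) : Lim (fun N => c * a N) (c * r) := by
  obtain ⟨K, hK⟩ := h
  refine ⟨|c| * K, fun N => ?_⟩
  rw [← mul_sub, abs_mul, mul_div_assoc]
  exact mul_le_mul_of_nonneg_left (hK N) (abs_nonneg c)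

lemma Lim.zero : Lim (fun _ => 0) 0 := ⟨0, fun N => by simp⟩

lemma Lim.sum {ι : Type} (s : Finset ι) {a : ι → ℕ → ℝ} (h : ∀ i ∈ s, Lim (a i) 0) :
    Lim (fun N => ∑ i ∈ s, a i N) 0 := by
  induction s using Finset.induction_on with
  | empty => simpa using Lim.zero
  | insert x s hx ih =>
    have h1 := (h x (by simp)).add (ih fun i hi => h i (by simp [hi]))
    rw [add_zero] at h1
    exact h1.congr fun N => by rw [Finset.sum_insert hx]

section

variable {n : ℕ} {c : (Fin (n + 1) → W G) → ℝ} {C : ℝ} (hC : ∀ x, |c x| ≤ C)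

include hC

lemma It_asy {μ ν : Fin (n + 1) → ℕ → Mn (W G)} (hμ : ∀ i N, IsMean (μ i N))
    (hν : ∀ i N, IsMean (ν i N)) (h : ∀ i, Asy (μ i) (ν i)) :
    Lim (fun N => It (fun i => μ i N) c - It (fun i => ν i N) c) 0 := by
  choose K hK0 hK using h
  refine ⟨(n + 1 : ℕ) * ((∑ i, K i) * C), fun N => ?_⟩
  rw [sub_zero]
  have h1 : ∀ i, Close ((∑ i, K i) / (N + 1)) (μ i N) (ν i N) := by
    intro i f D hf
    have hD : 0 ≤ D := (abs_nonneg _).trans (hf 1)
    refine (hK i N f D hf).trans (mul_le_mul_of_nonneg_right ?_ hD)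
    exact div_le_div_of_nonneg_right (Finset.single_le_sum (fun j _ => hK0 j) (Finset.mem_univ i))
      (by positivity)
  have h2 := It_close (fun i => hμ i N) (fun i => hν i N) h1 hC
  refine h2.trans (le_of_eq ?_)
  ring

variable (hg : ∀ (s : V) (x : Fin (n + 1) → W G), c (fun i => gen G s * x i) = - c x)

include hg

lemma It_gen (s : V) (μ : Fin (n + 1) → Mn (W G)) :
    It (fun i => cv (dir (gen G s)) (μ i)) c = - It μ c := by
  rw [It_tl]
  simp only [hg]
  have := It_smul μ (-1) c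
  simp only [neg_mul, one_mul] at this
  exact this

/-- the first face -/
lemma first_face {l : V ⊕ V × V} {y : Fin n → V ⊕ V × V}
    (h : GT G (Fin.cons l y : Fin (n + 1) → V ⊕ V × V)) :
    Lim (fun N => It (fun k : Fin (n + 1) => xs G (fs (Fin.cons l y : Fin (n + 1) → V ⊕ V × V)
      k.succ) N) c - (if l.isLeft then (-1 : ℝ) else 0) * It (fl G y N) c) 0 := by
  have h0 : ∀ k : Fin (n + 1), fs (Fin.cons l y : Fin (n + 1) → V ⊕ V × V) k.succ =
      insert l (fs y k) := fun k => fs_cons_succ l y k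
  have hca : ∀ k : Fin (n + 1), Ca G (insert l (fs y k)) := fun k => by
    rw [← h0]; exact GT_ca h _
  simp only [h0]
  rcases l with s | p
  · have h1 := It_asy hC (μ := fun k N => xs G (insert (Sum.inl s) (fs y k)) N)
      (ν := fun k N => cv (dir (gen G s)) (fl G y N k)) (fun _ _ => xs_mean _ _)
      (fun _ _ => (IsMean.dir _).cv (xs_mean _ _))
      (fun k => xs_insert (GT_head h k) (hca k))
    refine h1.congr fun N => ?_
    rw [It_gen hC hg s (fl G y N)]
    simp
  · have h1 := It_asy hC (μ := fun k N => cv (dir (gen G p.1))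
        (xs G (insert (Sum.inr p) (fs y k)) N))
      (ν := fun k N => xs G (insert (Sum.inr p) (fs y k)) N)
      (fun _ _ => (IsMean.dir _).cv (xs_mean _ _)) (fun _ _ => xs_mean _ _)
      (fun k => xs_pair (by simp) (hca k))
    have h2 := h1.mul (-1 / 2)
    rw [mul_zero] at h2
    refine h2.congr fun N => ?_
    rw [It_gen hC hg p.1 fun k => xs G (insert (Sum.inr p) (fs y k)) N]
    simp only [Sum.isLeft_inr, Bool.false_eq_true, if_false, zero_mul, sub_zero]
    ring

end

lemma It_dir : ∀ {m : ℕ} (w : Fin m → W G) (F : (Fin m → W G) → ℝ),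
    It (fun i => dir (w i)) F = F w
  | 0, w, F => by
    rw [It_zero]
    congr 1
    exact Subsingleton.elim _ _
  | m + 1, w, F => by
    rw [It_succ, dir_apply, It_dir]
    congr 1
    exact Fin.cons_self_tail w

lemma xx_cons_succ' {m : ℕ} (u₀ : V) (u : Fin m → V) (j : Fin (m + 1)) :
    xx G (Fin.cons u₀ u : Fin (m + 1) → V) j.succ = gen G u₀ * xx G u j := by
  unfold xx
  rw [Fin.partialProd_succ']
  rfl

/-- the means of the flags of vertices -/
lemma xs_vert : ∀ {m : ℕ} (s : Fin m → V) (_ : ∀ i j, i ≠ j → G.Adj (s i) (s j))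
    (k : Fin (m + 1)), Asy (xs G (fs (Sum.inl ∘ s : Fin m → V ⊕ V × V) k))
      (fun _ => dir (xx G s k))
  | 0, s, _, k => by
    obtain rfl : k = 0 := Subsingleton.elim (α := Fin 1) _ _
    refine Asy.of_eq fun N => ?_
    rw [fs_zero, xs_empty]
    unfold xx
    rw [Fin.partialProd_zero]
  | m + 1, s, hs, k => by
    refine Fin.cases ?_ (fun j => ?_) k
    · refine Asy.of_eq fun N => ?_
      rw [fs_zero, xs_empty]
      unfold xx
      rw [Fin.partialProd_zero]
    · obtain ⟨u₀, u, rfl⟩ : ∃ u₀ u, s = (Fin.cons u₀ u : Fin (m + 1) → V) :=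
        ⟨s 0, Fin.tail s, (Fin.cons_self_tail s).symm⟩
      have e : (Sum.inl ∘ (Fin.cons u₀ u : Fin (m + 1) → V) : Fin (m + 1) → V ⊕ V × V) =
          Fin.cons (Sum.inl u₀) (Sum.inl ∘ u) := by
        funext i
        refine Fin.cases ?_ (fun l => ?_) i <;> simp
      have hgt : GT G (Fin.cons (Sum.inl u₀) (Sum.inl ∘ u) : Fin (m + 1) → V ⊕ V × V) := by
        rw [← e]
        exact ⟨fun i => trivial, fun i j hij => hs i j hij⟩
      have hca : Ca G (insert (Sum.inl u₀) (fs (Sum.inl ∘ u : Fin m → V ⊕ V × V) j)) := by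
        rw [← fs_cons_succ]
        exact GT_ca hgt _
      have h1 := xs_insert (GT_head hgt j) hca
      have h2 := xs_vert u (fun i j hij => by
        have := hs i.succ j.succ fun e => hij (Fin.succ_injective _ e)
        simpa using this) j
      have h3 := Asy.cv_right (μ := fun _ => dir (gen G u₀)) (fun _ => IsMean.dir _) h2
      rw [e, fs_cons_succ]
      refine (h1.trans h3).trans (Asy.of_eq fun N => ?_)
      rw [dir_cv_dir, ← xx_cons_succ']

end Pool.Agent.K4H70.CH
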