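import Pool.Agent.K4H70.CH.Dih
import Pool.Agent.K4H70.SV.Crit

/-!
Means of labels.
-/

set_option autoImplicit false
set_option linter.unusedSectionVars false

open scoped Classical

namespace Pool.Agent.K4H70.CH

open Pool.Agent.W907.SG (W cox)
open Pool.Agent.Q134.SV
open Pool.Agent.K4H70.SV

variable {V : Type} (G : SimpleGraph V)

/-- the mean of a label -/
noncomputable def lm : V ⊕ V × V → ℕ → Mn (W G)
  | Sum.inl s, _ => dir (gen G s)
  | Sum.inr p, N => av (gen G p.1) (gen G p.2) N

/-- the elements of a label -/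
def ls : V ⊕ V × V → Set (W G)
  | Sum.inl s => {gen G s}
  | Sum.inr p => (Subgroup.closure {gen G p.1, gen G p.2} : Subgroup (W G))

lemma lm_mean (l : V ⊕ V × V) (N : ℕ) : IsMean (lm G l N) := by
  rcases l with s | p
  · exact IsMean.dir _
  · exact av_mean _ _ _

lemma lm_Sp (l : V ⊕ V × V) (N : ℕ) : lm G l N ∈ Sp (ls G l) := by
  rcases l with s | p
  · exact dir_Sp rfl
  · exact av_Sp (Subgroup.subset_closure (by simp)) (Subgroup.subset_closure (by simp)) N

lemma comm_closure {S : Set (W G)} {a : W G} (h : ∀ b ∈ S, a * b = b * a) :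
    ∀ b ∈ (Subgroup.closure S : Subgroup (W G)), a * b = b * a := by
  intro b hb
  refine Subgroup.closure_induction (p := fun b _ => a * b = b * a) h ?_ ?_ ?_ hb
  · rw [mul_one, one_mul]
  · intro x y _ _ hx hy
    rw [← mul_assoc, hx, mul_assoc, hy, mul_assoc]
  · intro x _ hx
    have : Commute a x := hx
    exact this.inv_right.eq

lemma comm_closure₂ {S S' : Set (W G)} (h : ∀ a ∈ S, ∀ b ∈ S', a * b = b * a) :
    ∀ a ∈ (Subgroup.closure S : Subgroup (W G)), ∀ b ∈ (Subgroup.closure S' : Subgroup (W G)),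
      a * b = b * a := by
  intro a ha b hb
  refine (comm_closure G (S := S) (a := b) (fun a' ha' => ?_) a ha).symm
  exact (comm_closure G (S := S') (a := a') (fun b' hb' => h a' ha' b' hb') b hb).symm

variable {G}

lemma lm_comm {l l' : V ⊕ V × V} (h : LA G l l') :
    Asy (fun N => cv (lm G l N) (lm G l' N)) (fun N => cv (lm G l' N) (lm G l N)) := by
  rcases l with u | p <;> rcases l' with w | q
  · refine Asy.of_eq fun N => cv_comm (lm_Sp G _ N) (lm_Sp G _ N) ?_
    rintro _ rfl _ rfl
    exact gen_comm G h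
  · rcases h with h | h | ⟨h1, h2⟩
    · subst h
      refine Asy.of_eq fun N => ?_
      change cv (dir (gen G q.1)) (av _ _ N) = cv (av _ _ N) (dir (gen G q.1))
      rw [av_left_f (gen_sq G _) (gen_sq G _), av_right_f (gen_sq G _)]
    · subst h
      exact (av_left_b (gen_sq G q.1) (gen_sq G q.2)).trans
        (av_right_b (gen_sq G q.1) (gen_sq G q.2)).symm
    · refine Asy.of_eq fun N => cv_comm (lm_Sp G _ N) (lm_Sp G _ N) ?_
      rintro _ rfl
      refine comm_closure G ?_
      rintro _ (rfl | rfl)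
      · exact gen_comm G h1
      · exact gen_comm G h2
  · rcases h with h | h | ⟨h1, h2⟩
    · subst h
      refine Asy.of_eq fun N => ?_
      change cv (av _ _ N) (dir (gen G p.1)) = cv (dir (gen G p.1)) (av _ _ N)
      rw [av_left_f (gen_sq G _) (gen_sq G _), av_right_f (gen_sq G _)]
    · subst h
      exact (av_right_b (gen_sq G p.1) (gen_sq G p.2)).trans
        (av_left_b (gen_sq G p.1) (gen_sq G p.2)).symm
    · refine Asy.of_eq fun N => (cv_comm (lm_Sp G (Sum.inl w) N) (lm_Sp G (Sum.inr p) N) ?_).symm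
      rintro _ rfl
      refine comm_closure G ?_
      rintro _ (rfl | rfl)
      · exact gen_comm G h1
      · exact gen_comm G h2
  · refine Asy.of_eq fun N => cv_comm (lm_Sp G _ N) (lm_Sp G _ N) (comm_closure₂ G ?_)
    rintro _ (rfl | rfl) _ (rfl | rfl)
    · exact gen_comm G h.1
    · exact gen_comm G h.2.1
    · exact gen_comm G h.2.2.1
    · exact gen_comm G h.2.2.2

lemma LA_symm {l l' : V ⊕ V × V} (h : LA G l l') : LA G l' l := by
  rcases l with u | p <;> rcases l' with w | q
  · exact SimpleGraph.Adj.symm h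
  · exact h
  · exact h
  · exact ⟨h.1.symm, h.2.2.1.symm, h.2.1.symm, h.2.2.2.symm⟩

variable (G) in
/-- the mean of a list of labels -/
noncomputable def mm : List (V ⊕ V × V) → ℕ → Mn (W G)
  | [], _ => dir 1
  | l :: t, N => cv (lm G l N) (mm t N)

lemma mm_mean : ∀ (t : List (V ⊕ V × V)) (N : ℕ), IsMean (mm G t N)
  | [], _ => IsMean.dir _
  | l :: t, N => (lm_mean G l N).cv (mm_mean t N)

lemma mm_perm {t t' : List (V ⊕ V × V)} (h : t.Perm t') : t.Pairwise (LA G) →
    Asy (mm G t) (mm G t') := by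
  induction h with
  | nil => intro _; exact Asy.refl _
  | cons x _ ih =>
    intro hp
    exact Asy.cv_right (fun N => lm_mean G x N) (ih (List.pairwise_cons.1 hp).2)
  | swap x y l =>
    intro hp
    have h1 : LA G y x := by
      have := (List.pairwise_cons.1 hp).1 x (by simp)
      exact this
    have h2 := (lm_comm h1).cv_left (ν := mm G l) (mm_mean l)
    refine (Asy.of_eq fun N => ?_).trans (h2.trans (Asy.of_eq fun N => ?_))
    · exact (cv_assoc _ _ _).symm
    · exact cv_assoc _ _ _
  | trans h1 _ ih1 ih2 =>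
    intro hp
    exact (ih1 hp).trans (ih2 ((h1.pairwise_iff fun hab => LA_symm hab).1 hp))

variable (G) in
/-- the mean of a set of labels -/
noncomputable def xs (σ : Finset (V ⊕ V × V)) (N : ℕ) : Mn (W G) := mm G σ.toList N

lemma xs_mean (σ : Finset (V ⊕ V × V)) (N : ℕ) : IsMean (xs G σ N) := mm_mean _ _

variable (G) in
/-- the members are pairwise adjacent -/
def Ca (σ : Finset (V ⊕ V × V)) : Prop := ∀ l ∈ σ, ∀ l' ∈ σ, l ≠ l' → LA G l l'

lemma Ca.pairwise {σ : Finset (V ⊕ V × V)} (h : Ca G σ) : σ.toList.Pairwise (LA G) := by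
  have h1 : σ.toList.Pairwise (· ≠ ·) := σ.nodup_toList
  refine h1.imp_of_mem fun ha hb hab => ?_
  exact h _ (Finset.mem_toList.1 ha) _ (Finset.mem_toList.1 hb) hab

lemma xs_insert {σ : Finset (V ⊕ V × V)} {l : V ⊕ V × V} (hl : l ∉ σ) (h : Ca G (insert l σ)) :
    Asy (xs G (insert l σ)) (fun N => cv (lm G l N) (xs G σ N)) :=
  mm_perm (Finset.toList_insert hl) h.pairwise

lemma xs_empty (N : ℕ) : xs G (∅ : Finset (V ⊕ V × V)) N = dir 1 := by
  unfold xs
  rw [Finset.toList_empty]
  rfl

/-- the mean is invariant under the generators of the members which are pairs -/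
lemma xs_pair {σ : Finset (V ⊕ V × V)} {p : V × V} (hp : Sum.inr p ∈ σ) (h : Ca G σ) :
    Asy (fun N => cv (dir (gen G p.1)) (xs G σ N)) (xs G σ) := by
  have h1 : σ = insert (Sum.inr p) (σ.erase (Sum.inr p)) := (Finset.insert_erase hp).symm
  have h2 := xs_insert (l := Sum.inr p) (σ := σ.erase (Sum.inr p)) (by simp) (by rwa [← h1])
  rw [← h1] at h2
  refine (Asy.cv_right (μ := fun _ => dir (gen G p.1)) (fun _ => IsMean.dir _) h2).trans
    (Asy.trans (Asy.of_eq fun N => ?_) h2.symm)
  rw [← cv_assoc]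
  congr 1
  exact av_left_f (gen_sq G _) (gen_sq G _) N

end Pool.Agent.K4H70.CH
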