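import Pool.Agent.K4H70.CH.Flag

/-!
Bounded cocycles pair trivially with the cycles which bound in the complex of labels.
-/

set_option autoImplicit false
set_option linter.unusedSectionVars false

open scoped Classical

namespace Pool.Agent.K4H70.CH

open Pool.Agent.W907.SG (W cox)
open Pool.Agent.Q134.SV
open Pool.Agent.K4H70.SV

variable {V : Type} {G : SimpleGraph V}

/-- the weight of a label -/
noncomputable def wt (l : V ⊕ V × V) : ℝ := if l.isLeft then 1 else 2

/-- the weight of a tuple -/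
noncomputable def ww {m : ℕ} (t : Fin m → V ⊕ V × V) : ℝ := ∏ i, wt (t i)

lemma ww_swap {m : ℕ} (t : Fin m → V ⊕ V × V) (σ : Equiv.Perm (Fin m)) : ww (t ∘ σ) = ww t :=
  Equiv.prod_comp σ fun i => wt (t i)

lemma ww_insertNth {m : ℕ} (k : Fin (m + 1)) (l : V ⊕ V × V) (y : Fin m → V ⊕ V × V) :
    ww (k.insertNth (α := fun _ => V ⊕ V × V) l y) = wt l * ww y := by
  unfold ww
  rw [Fin.prod_univ_succAbove _ k]
  simp

lemma ww_inl {m : ℕ} (s : Fin m → V) : ww (Sum.inl ∘ s : Fin m → V ⊕ V × V) = 1 := by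
  unfold ww wt
  simp

/-- the identity of the faces -/
lemma It_faces {n : ℕ} {c : (Fin (n + 1) → W G) → ℝ}
    (hc : ∀ x : Fin (n + 2) → W G, cobd c x = 0) {μ : Fin (n + 2) → Mn (W G)}
    (hμ : ∀ i, IsMean (μ i)) : ∑ i : Fin (n + 2), (-1 : ℝ) ^ (i : ℕ) * It (μ ∘ i.succAbove) c = 0 := by
  have h1 : It μ (fun x => ∑ i : Fin (n + 2), (-1 : ℝ) ^ (i : ℕ) * c (x ∘ i.succAbove)) = 0 := by
    have : (fun x : Fin (n + 2) → W G =>
        ∑ i : Fin (n + 2), (-1 : ℝ) ^ (i : ℕ) * c (x ∘ i.succAbove)) = fun _ => 0 := funext hc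
    rw [this, It_const hμ]
  rw [It_sum hμ] at h1
  rw [← h1]
  refine Finset.sum_congr rfl fun i _ => ?_
  rw [It_smul, It_omit hμ]

variable [Fintype V]

section

variable {n : ℕ} {z : (Fin n → V) → ℝ} {B : (Fin (n + 1) → V ⊕ V × V) → ℝ} (hB : Alt B)
  {c : (Fin (n + 1) → W G) → ℝ}

variable (G) in
/-- the faces of the sum -/
noncomputable def SS (B : (Fin (n + 1) → V ⊕ V × V) → ℝ) (c : (Fin (n + 1) → W G) → ℝ)
    (N : ℕ) (i : Fin (n + 2)) : ℝ :=
  ∑ t : Fin (n + 1) → V ⊕ V × V, ww t * B t * It (fl G t N ∘ i.succAbove) c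

lemma SS_sum (hc : ∀ x : Fin (n + 2) → W G, cobd c x = 0) (N : ℕ) :
    ∑ i : Fin (n + 2), (-1 : ℝ) ^ (i : ℕ) * SS G B c N i = 0 := by
  unfold SS
  simp only [Finset.mul_sum]
  rw [Finset.sum_comm]
  refine Finset.sum_eq_zero fun t _ => ?_
  have h1 := It_faces hc (μ := fl G t N) fun i => fl_mean t N i
  calc ∑ i : Fin (n + 2), (-1 : ℝ) ^ (i : ℕ) * (ww t * B t * It (fl G t N ∘ i.succAbove) c)
      = ww t * B t * ∑ i : Fin (n + 2), (-1 : ℝ) ^ (i : ℕ) * It (fl G t N ∘ i.succAbove) c := by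
        rw [Finset.mul_sum]
        exact Finset.sum_congr rfl fun i _ => by ring
    _ = 0 := by rw [h1, mul_zero]

include hB

lemma SS_mid (N : ℕ) (k : Fin n) : SS G B c N k.castSucc.succ = 0 := by
  set σ := Equiv.swap k.castSucc k.succ with hσ
  have hne : k.castSucc ≠ k.succ := (Fin.castSucc_lt_succ).ne
  have h1 : SS G B c N k.castSucc.succ = - SS G B c N k.castSucc.succ := by
    conv_lhs => unfold SS
    rw [← Equiv.sum_comp (Equiv.arrowCongr σ (Equiv.refl (V ⊕ V × V)))]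
    unfold SS
    rw [← Finset.sum_neg_distrib]
    refine Finset.sum_congr rfl fun t _ => ?_
    have e1 : (Equiv.arrowCongr σ (Equiv.refl (V ⊕ V × V))) t = t ∘ σ := by
      funext l
      simp [Equiv.arrowCongr, hσ]
    rw [e1, ww_swap, hB t _ _ hne]
    have e2 : fl G (t ∘ σ) N ∘ k.castSucc.succ.succAbove = fl G t N ∘ k.castSucc.succ.succAbove := by
      funext j
      simp only [Function.comp_apply, fl]
      congr 1
      refine fs_swap t ?_
      have h2 : k.castSucc.succ.succAbove j ≠ k.castSucc.succ := Fin.succAbove_ne _ _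
      rw [Fin.lt_def, Fin.lt_def]
      simp only [Fin.val_castSucc, Fin.val_succ]
      have h3 : ((k.castSucc.succ.succAbove j : Fin (n + 2)) : ℕ) ≠ (k : ℕ) + 1 := by
        intro e
        exact h2 (Fin.ext (by simpa using e))
      omega
    rw [e2]
    ring
  linarith

lemma SS_last (N : ℕ) : SS G B c N (Fin.last n).succ = (-1 : ℝ) ^ n *
    ∑ y : Fin n → V ⊕ V × V, ∑ l, wt l * ww y * B (Fin.cons l y) * It (fl G y N) c := by
  unfold SS
  rw [← Equiv.sum_comp (Fin.insertNthEquiv (fun _ : Fin (n + 1) => V ⊕ V × V) (Fin.last n)),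
    Fintype.sum_prod_type, Finset.sum_comm, Finset.mul_sum]
  refine Finset.sum_congr rfl fun y _ => ?_
  rw [Finset.mul_sum]
  refine Finset.sum_congr rfl fun l _ => ?_
  have e1 : (Fin.insertNthEquiv (fun _ : Fin (n + 1) => V ⊕ V × V) (Fin.last n)) (l, y) =
      (Fin.last n).insertNth (α := fun _ => V ⊕ V × V) l y := rfl
  rw [e1, ww_insertNth, hB.move _ (Fin.last n)]
  have e2 : (Fin.cons (((Fin.last n).insertNth (α := fun _ => V ⊕ V × V) l y) (Fin.last n))
      (((Fin.last n).insertNth (α := fun _ => V ⊕ V × V) l y) ∘ (Fin.last n).succAbove) :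
      Fin (n + 1) → V ⊕ V × V) = Fin.cons l y := by
    congr 1
    · simp
    · funext j
      simp only [Function.comp_apply]
      exact Fin.insertNth_apply_succAbove (α := fun _ => V ⊕ V × V) (Fin.last n) l y j
  rw [e2]
  have e3 : fl G ((Fin.last n).insertNth (α := fun _ => V ⊕ V × V) l y) N ∘
      (Fin.last n).succ.succAbove = fl G y N := by
    funext j
    simp only [Function.comp_apply, fl]
    congr 1
    rw [Fin.insertNth_last', Fin.succ_last, Fin.succAbove_last]
    exact fs_snoc y l j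
  rw [e3]
  simp only [Fin.val_last, smul_eq_mul]
  ring

omit hB in
lemma SS_first (N : ℕ) : SS G B c N 0 =
    ∑ y : Fin n → V ⊕ V × V, ∑ l, wt l * ww y * B (Fin.cons l y) *
      It (fun k : Fin (n + 1) => xs G (fs (Fin.cons l y : Fin (n + 1) → V ⊕ V × V) k.succ) N) c := by
  unfold SS
  rw [← Equiv.sum_comp (Fin.insertNthEquiv (fun _ : Fin (n + 1) => V ⊕ V × V) 0),
    Fintype.sum_prod_type, Finset.sum_comm]
  refine Finset.sum_congr rfl fun y _ => Finset.sum_congr rfl fun l _ => ?_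
  have e1 : (Fin.insertNthEquiv (fun _ : Fin (n + 1) => V ⊕ V × V) 0) (l, y) =
      (0 : Fin (n + 1)).insertNth (α := fun _ => V ⊕ V × V) l y := rfl
  rw [e1, ww_insertNth, Fin.insertNth_zero']
  rfl

end

section

variable {n : ℕ} {z : (Fin n → V) → ℝ} {B : (Fin (n + 1) → V ⊕ V × V) → ℝ}
  {c : (Fin (n + 1) → W G) → ℝ}

/-- the identity of the faces, summed -/
theorem face_identity (hB : Alt B) (hzB : ∀ y, ∑ x, B (Fin.cons x y) = zh z y)
    (hc : ∀ x : Fin (n + 2) → W G, cobd c x = 0) (N : ℕ) :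
    ∑ y : Fin n → V ⊕ V × V, ∑ l, wt l * ww y * B (Fin.cons l y) *
      (It (fun k : Fin (n + 1) => xs G (fs (Fin.cons l y : Fin (n + 1) → V ⊕ V × V) k.succ) N) c -
        (if l.isLeft then (-1 : ℝ) else 0) * It (fl G y N) c) =
      2 * ∑ s, z s * It (fl G (Sum.inl ∘ s) N) c := by
  have e1 := SS_sum (G := G) (B := B) hc N
  rw [Fin.sum_univ_succ, Fin.sum_univ_castSucc,
    Finset.sum_eq_zero (s := Finset.univ) (f := fun i : Fin n =>
      (-1 : ℝ) ^ ((i.castSucc.succ : Fin (n + 2)) : ℕ) * SS G B c N i.castSucc.succ)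
      (fun k _ => by rw [SS_mid hB, mul_zero]), SS_last hB, SS_first] at e1
  have e2 : (-1 : ℝ) ^ (((Fin.last n).succ : Fin (n + 2)) : ℕ) * ((-1 : ℝ) ^ n *
      ∑ y : Fin n → V ⊕ V × V, ∑ l, wt l * ww y * B (Fin.cons l y) * It (fl G y N) c) =
      - ∑ y : Fin n → V ⊕ V × V, ∑ l, wt l * ww y * B (Fin.cons l y) * It (fl G y N) c := by
    have : (-1 : ℝ) ^ n * (-1) ^ n = 1 := by rw [← mul_pow]; simp
    rw [Fin.val_succ, Fin.val_last, pow_succ]
    linear_combination (- ∑ y : Fin n → V ⊕ V × V, ∑ l, wt l * ww y * B (Fin.cons l y) *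
      It (fl G y N) c) * this
  rw [e2] at e1
  have e3 : ∀ (y : Fin n → V ⊕ V × V) (l : V ⊕ V × V), wt l * ww y * B (Fin.cons l y) *
      (It (fun k : Fin (n + 1) => xs G (fs (Fin.cons l y : Fin (n + 1) → V ⊕ V × V) k.succ) N) c -
      (if l.isLeft then (-1 : ℝ) else 0) * It (fl G y N) c) =
      wt l * ww y * B (Fin.cons l y) *
        It (fun k : Fin (n + 1) => xs G (fs (Fin.cons l y : Fin (n + 1) → V ⊕ V × V) k.succ) N) c -
      wt l * ww y * B (Fin.cons l y) * It (fl G y N) c +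
      2 * (ww y * It (fl G y N) c * B (Fin.cons l y)) := by
    intro y l
    rcases l with s | p
    · simp only [wt, Sum.isLeft_inl, if_true]
      ring
    · simp only [wt, Sum.isLeft_inr, Bool.false_eq_true, if_false]
      ring
  simp only [e3, Finset.sum_add_distrib, Finset.sum_sub_distrib]
  have e4 : ∑ y : Fin n → V ⊕ V × V, ∑ l, 2 * (ww y * It (fl G y N) c * B (Fin.cons l y)) =
      2 * ∑ s, z s * It (fl G (Sum.inl ∘ s) N) c := by
    have e5 := sum_zh z fun y => ww y * It (fl G y N) c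
    simp only [smul_eq_mul, ww_inl, one_mul] at e5
    rw [← e5, Finset.mul_sum]
    refine Finset.sum_congr rfl fun y _ => ?_
    rw [← Finset.mul_sum, ← Finset.mul_sum, hzB]
    ring
  rw [e4]
  simp only [Fin.val_zero, pow_zero, one_mul] at e1
  linarith

end

end Pool.Agent.K4H70.CH
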