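import Mathlib

/-!
Finite means on a group.
-/

set_option autoImplicit false

open scoped Classical

namespace Pool.Agent.K4H70.CH

variable {Γ : Type} [Group Γ]

/-- linear functionals -/
abbrev Mn (Γ : Type) : Type := (Γ → ℝ) →ₗ[ℝ] ℝ

/-- normalised and bounded by the supremum -/
structure IsMean (μ : Mn Γ) : Prop where
  one : μ (fun _ => 1) = 1
  bd : ∀ (f : Γ → ℝ) (C : ℝ), (∀ x, |f x| ≤ C) → |μ f| ≤ C

omit [Group Γ] in
lemma IsMean.const {μ : Mn Γ} (h : IsMean μ) (c : ℝ) : μ (fun _ => c) = c := by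
  have : (fun _ : Γ => c) = c • fun _ : Γ => (1 : ℝ) := by
    funext x; simp
  rw [this, map_smul, h.one]
  simp

/-- point masses -/
def dir (w : Γ) : Mn Γ := LinearMap.proj w

omit [Group Γ] in
lemma dir_apply (w : Γ) (f : Γ → ℝ) : dir w f = f w := rfl

omit [Group Γ] in
lemma IsMean.dir (w : Γ) : IsMean (dir w) := ⟨rfl, fun _ _ h => h w⟩

/-- convolution -/
def cv (μ ν : Mn Γ) : Mn Γ where
  toFun f := μ fun a => ν fun x => f (a * x)
  map_add' f g := by
    have : (fun a : Γ => ν fun x => (f + g) (a * x)) =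
        (fun a => ν fun x => f (a * x)) + fun a => ν fun x => g (a * x) := by
      funext a
      rw [Pi.add_apply, ← map_add]
      rfl
    rw [this, map_add]
  map_smul' r f := by
    have : (fun a : Γ => ν fun x => (r • f) (a * x)) = r • fun a => ν fun x => f (a * x) := by
      funext a
      rw [Pi.smul_apply, ← map_smul]
      rfl
    rw [this, map_smul]
    rfl

lemma cv_apply (μ ν : Mn Γ) (f : Γ → ℝ) : cv μ ν f = μ fun a => ν fun x => f (a * x) := rfl

lemma cv_assoc (μ ν ξ : Mn Γ) : cv (cv μ ν) ξ = cv μ (cv ν ξ) := by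
  apply LinearMap.ext
  intro f
  simp only [cv_apply, mul_assoc]

lemma dir_cv_dir (a b : Γ) : cv (dir a) (dir b) = dir (a * b) := by
  apply LinearMap.ext
  intro f
  simp only [cv_apply, dir_apply]

lemma dir_one_cv (μ : Mn Γ) : cv (dir 1) μ = μ := by
  apply LinearMap.ext
  intro f
  simp only [cv_apply, dir_apply, one_mul]

lemma cv_dir_one (μ : Mn Γ) : cv μ (dir 1) = μ := by
  apply LinearMap.ext
  intro f
  simp only [cv_apply, dir_apply, mul_one]

lemma IsMean.cv {μ ν : Mn Γ} (h : IsMean μ) (h' : IsMean ν) : IsMean (cv μ ν) := by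
  refine ⟨?_, fun f C hf => ?_⟩
  · rw [cv_apply, h'.one, h.one]
  · rw [cv_apply]
    exact h.bd _ C fun a => h'.bd _ C fun x => hf _

lemma cv_add_left (μ μ' ν : Mn Γ) : CH.cv (μ + μ') ν = CH.cv μ ν + CH.cv μ' ν := rfl

lemma cv_smul_left (r : ℝ) (μ ν : Mn Γ) : CH.cv (r • μ) ν = r • CH.cv μ ν := rfl

lemma cv_zero_left (ν : Mn Γ) : CH.cv 0 ν = 0 := rfl

lemma cv_add_right (μ ν ν' : Mn Γ) : CH.cv μ (ν + ν') = CH.cv μ ν + CH.cv μ ν' := by
  apply LinearMap.ext
  intro f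
  rw [LinearMap.add_apply, cv_apply, cv_apply, cv_apply, ← map_add]
  rfl

lemma cv_smul_right (r : ℝ) (μ ν : Mn Γ) : CH.cv μ (r • ν) = r • CH.cv μ ν := by
  apply LinearMap.ext
  intro f
  rw [LinearMap.smul_apply, cv_apply, cv_apply, ← map_smul]
  rfl

lemma cv_zero_right (μ : Mn Γ) : CH.cv μ 0 = 0 := by
  apply LinearMap.ext
  intro f
  rw [cv_apply, LinearMap.zero_apply]
  exact map_zero μ

/-- the combinations of point masses on a set -/
def Sp (S : Set Γ) : Submodule ℝ (Mn Γ) := Submodule.span ℝ (CH.dir '' S)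

omit [Group Γ] in
lemma dir_Sp {S : Set Γ} {w : Γ} (h : w ∈ S) : CH.dir w ∈ Sp S := Submodule.subset_span ⟨w, h, rfl⟩

lemma cv_comm {S S' : Set Γ} {μ ν : Mn Γ} (hμ : μ ∈ Sp S) (hν : ν ∈ Sp S')
    (h : ∀ a ∈ S, ∀ b ∈ S', a * b = b * a) : CH.cv μ ν = CH.cv ν μ := by
  refine Submodule.span_induction (p := fun μ _ => CH.cv μ ν = CH.cv ν μ) ?_ ?_ ?_ ?_ hμ
  · rintro _ ⟨a, ha, rfl⟩
    refine Submodule.span_induction (p := fun ν _ => CH.cv (CH.dir a) ν = CH.cv ν (CH.dir a))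
      ?_ ?_ ?_ ?_ hν
    · rintro _ ⟨b, hb, rfl⟩
      rw [dir_cv_dir, dir_cv_dir, h a ha b hb]
    · rw [cv_zero_right, cv_zero_left]
    · intro x y _ _ hx hy
      rw [cv_add_right, cv_add_left, hx, hy]
    · intro r x _ hx
      rw [cv_smul_right, cv_smul_left, hx]
  · rw [cv_zero_right, cv_zero_left]
  · intro x y _ _ hx hy
    rw [cv_add_right, cv_add_left, hx, hy]
  · intro r x _ hx
    rw [cv_smul_right, cv_smul_left, hx]

/-- closeness -/
def Close (η : ℝ) (μ ν : Mn Γ) : Prop :=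
  ∀ (f : Γ → ℝ) (C : ℝ), (∀ x, |f x| ≤ C) → |μ f - ν f| ≤ η * C

omit [Group Γ] in
lemma Close.refl (μ : Mn Γ) : Close 0 μ μ := fun f C _ => by simp

omit [Group Γ] in
lemma Close.symm {η : ℝ} {μ ν : Mn Γ} (h : Close η μ ν) : Close η ν μ := fun f C hf => by
  rw [abs_sub_comm]
  exact h f C hf

omit [Group Γ] in
lemma Close.trans {η η' : ℝ} {μ ν ξ : Mn Γ} (h : Close η μ ν) (h' : Close η' ν ξ) :
    Close (η + η') μ ξ := fun f C hf => by
  have h1 := h f C hf
  have h2 := h' f C hf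
  have h3 := abs_sub_le (μ f) (ν f) (ξ f)
  linarith

lemma Close.cv_left {η : ℝ} {μ μ' ν : Mn Γ} (h : Close η μ μ') (hν : IsMean ν) :
    Close η (CH.cv μ ν) (CH.cv μ' ν) := fun f C hf => by
  rw [cv_apply, cv_apply]
  exact h _ C fun a => hν.bd _ C fun x => hf _

lemma Close.cv_right {η : ℝ} {μ ν ν' : Mn Γ} (hμ : IsMean μ) (h : Close η ν ν') :
    Close η (CH.cv μ ν) (CH.cv μ ν') := fun f C hf => by
  rw [cv_apply, cv_apply, ← map_sub]
  exact hμ.bd _ (η * C) fun a => h _ C fun x => hf _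

/-- asymptotic equality of sequences -/
def Asy (μ ν : ℕ → Mn Γ) : Prop := ∃ K : ℝ, 0 ≤ K ∧ ∀ N : ℕ, Close (K / (N + 1)) (μ N) (ν N)

omit [Group Γ] in
lemma Asy.refl (μ : ℕ → Mn Γ) : Asy μ μ := ⟨0, le_rfl, fun N => by
  rw [zero_div]; exact Close.refl _⟩

omit [Group Γ] in
lemma Asy.of_eq {μ ν : ℕ → Mn Γ} (h : ∀ N, μ N = ν N) : Asy μ ν := by
  rw [show μ = ν from funext h]
  exact Asy.refl _

omit [Group Γ] in
lemma Asy.symm {μ ν : ℕ → Mn Γ} (h : Asy μ ν) : Asy ν μ := by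
  obtain ⟨K, h0, h⟩ := h
  exact ⟨K, h0, fun N => (h N).symm⟩

omit [Group Γ] in
lemma Asy.trans {μ ν ξ : ℕ → Mn Γ} (h : Asy μ ν) (h' : Asy ν ξ) : Asy μ ξ := by
  obtain ⟨K, h0, h⟩ := h
  obtain ⟨K', h0', h'⟩ := h'
  refine ⟨K + K', by positivity, fun N => ?_⟩
  rw [add_div]
  exact (h N).trans (h' N)

lemma Asy.cv_left {μ μ' ν : ℕ → Mn Γ} (h : Asy μ μ') (hν : ∀ N, IsMean (ν N)) :
    Asy (fun N => CH.cv (μ N) (ν N)) (fun N => CH.cv (μ' N) (ν N)) := by
  obtain ⟨K, h0, h⟩ := h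
  exact ⟨K, h0, fun N => (h N).cv_left (hν N)⟩

lemma Asy.cv_right {μ ν ν' : ℕ → Mn Γ} (hμ : ∀ N, IsMean (μ N)) (h : Asy ν ν') :
    Asy (fun N => CH.cv (μ N) (ν N)) (fun N => CH.cv (μ N) (ν' N)) := by
  obtain ⟨K, h0, h⟩ := h
  exact ⟨K, h0, fun N => (h N).cv_right (hμ N)⟩

/-! ### Iterated means -/

/-- the iterated mean -/
def It : ∀ {m : ℕ}, (Fin m → Mn Γ) → ((Fin m → Γ) → ℝ) → ℝ
  | 0, _, F => F Fin.elim0
  | _ + 1, μ, F => μ 0 fun x => It (fun i => μ i.succ) fun y => F (Fin.cons x y)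

omit [Group Γ] in
lemma It_zero (μ : Fin 0 → Mn Γ) (F : (Fin 0 → Γ) → ℝ) : It μ F = F Fin.elim0 := rfl

omit [Group Γ] in
lemma It_succ {m : ℕ} (μ : Fin (m + 1) → Mn Γ) (F : (Fin (m + 1) → Γ) → ℝ) :
    It μ F = μ 0 fun x => It (fun i => μ i.succ) fun y => F (Fin.cons x y) := rfl

omit [Group Γ] in
lemma It_add : ∀ {m : ℕ} (μ : Fin m → Mn Γ) (F F' : (Fin m → Γ) → ℝ),
    It μ (fun x => F x + F' x) = It μ F + It μ F'
  | 0, _, _, _ => rfl
  | m + 1, μ, F, F' => by
    rw [It_succ, It_succ, It_succ, ← map_add]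
    congr 1
    funext x
    rw [It_add]
    rfl

omit [Group Γ] in
lemma It_smul : ∀ {m : ℕ} (μ : Fin m → Mn Γ) (r : ℝ) (F : (Fin m → Γ) → ℝ),
    It μ (fun x => r * F x) = r * It μ F
  | 0, _, _, _ => rfl
  | m + 1, μ, r, F => by
    rw [It_succ, It_succ, ← smul_eq_mul, ← map_smul]
    congr 1
    funext x
    rw [It_smul]
    rfl

omit [Group Γ] in
lemma It_const {m : ℕ} {μ : Fin m → Mn Γ} (hμ : ∀ i, IsMean (μ i)) (c : ℝ) :
    It μ (fun _ => c) = c := by
  induction m with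
  | zero => rfl
  | succ m ih =>
    rw [It_succ]
    have : (fun _ : Γ => It (fun i => μ i.succ) fun _ => c) = fun _ => c :=
      funext fun _ => ih fun i => hμ _
    rw [this, (hμ 0).const]

omit [Group Γ] in
lemma It_sum {m : ℕ} {μ : Fin m → Mn Γ} (hμ : ∀ i, IsMean (μ i)) {ι : Type} (s : Finset ι)
    (F : ι → (Fin m → Γ) → ℝ) : It μ (fun x => ∑ i ∈ s, F i x) = ∑ i ∈ s, It μ (F i) := by
  induction s using Finset.induction_on with
  | empty =>
    simp only [Finset.sum_empty]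
    exact It_const hμ 0
  | insert a s ha ih =>
    simp only [Finset.sum_insert ha]
    rw [It_add, ih]

omit [Group Γ] in
lemma It_bd : ∀ {m : ℕ} {μ : Fin m → Mn Γ} (_ : ∀ i, IsMean (μ i)) {F : (Fin m → Γ) → ℝ} {C : ℝ}
    (_ : ∀ x, |F x| ≤ C), |It μ F| ≤ C
  | 0, _, _, _, _, h => h _
  | m + 1, μ, hμ, F, C, h => by
    rw [It_succ]
    exact (hμ 0).bd _ _ fun x => It_bd (fun i => hμ _) fun y => h _

omit [Group Γ] in
lemma It_omit : ∀ {m : ℕ} {μ : Fin (m + 1) → Mn Γ} (_ : ∀ i, IsMean (μ i))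
    (F : (Fin m → Γ) → ℝ) (j : Fin (m + 1)),
    It μ (fun x => F (x ∘ j.succAbove)) = It (μ ∘ j.succAbove) F
  | 0, μ, hμ, F, j => by
    rw [It_succ]
    have h1 : (fun x : Γ => It (fun i => μ i.succ) fun y =>
        F ((Fin.cons x y : Fin 1 → Γ) ∘ j.succAbove)) = fun _ => F Fin.elim0 := by
      funext x
      rw [It_zero]
      congr 1
      funext i
      exact i.elim0
    rw [h1, (hμ 0).const]
    rfl
  | m + 1, μ, hμ, F, j => by
    refine Fin.cases ?_ (fun k => ?_) j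
    · rw [It_succ]
      have h1 : (fun x : Γ => It (fun i => μ i.succ) fun y =>
          F ((Fin.cons x y : Fin (m + 2) → Γ) ∘ (0 : Fin (m + 2)).succAbove)) =
          fun _ => It (fun i => μ i.succ) F := by
        funext x
        congr 1
      rw [h1, (hμ 0).const]
      congr 1
    · rw [It_succ, It_succ]
      have h0 : (μ ∘ k.succ.succAbove) 0 = μ 0 := by simp
      rw [h0]
      congr 1
      funext x
      have h2 : (fun y : Fin (m + 1) → Γ =>
          F ((Fin.cons x y : Fin (m + 2) → Γ) ∘ k.succ.succAbove)) =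
          fun y => (fun y' => F (Fin.cons x y')) (y ∘ k.succAbove) := by
        funext y
        simp only
        congr 1
        funext i
        refine Fin.cases ?_ (fun l => ?_) i
        · simp
        · simp [Fin.succ_succAbove_succ]
      rw [h2, It_omit (fun i => hμ i.succ) (fun y' => F (Fin.cons x y')) k]
      congr 1
      funext i
      simp [Fin.succ_succAbove_succ]

omit [Group Γ] in
lemma It_close : ∀ {m : ℕ} {μ ν : Fin m → Mn Γ} (_ : ∀ i, IsMean (μ i)) (_ : ∀ i, IsMean (ν i))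
    {η : ℝ} (_ : ∀ i, Close η (μ i) (ν i)) {F : (Fin m → Γ) → ℝ} {C : ℝ} (_ : ∀ x, |F x| ≤ C),
    |It μ F - It ν F| ≤ m * (η * C)
  | 0, _, _, _, _, _, _, _, _, _ => by simp [It_zero]
  | m + 1, μ, ν, hμ, hν, η, h, F, C, hF => by
    rw [It_succ, It_succ]
    have h1 := h 0 (fun x => It (fun i => ν i.succ) fun y => F (Fin.cons x y)) C
      fun x => It_bd (fun i => hν _) fun y => hF _
    have h2 : |μ 0 (fun x => It (fun i => μ i.succ) fun y => F (Fin.cons x y)) -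
        μ 0 (fun x => It (fun i => ν i.succ) fun y => F (Fin.cons x y))| ≤ m * (η * C) := by
      rw [← map_sub]
      refine (hμ 0).bd _ _ fun x => ?_
      exact It_close (fun i => hμ _) (fun i => hν _) (fun i => h _) fun y => hF _
    have h3 := abs_sub_le (μ 0 fun x => It (fun i => μ i.succ) fun y => F (Fin.cons x y))
      (μ 0 fun x => It (fun i => ν i.succ) fun y => F (Fin.cons x y))
      (ν 0 fun x => It (fun i => ν i.succ) fun y => F (Fin.cons x y))
    push_cast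
    linarith

lemma It_tl : ∀ {m : ℕ} (μ : Fin m → Mn Γ) (F : (Fin m → Γ) → ℝ) (w : Γ),
    It (fun i => CH.cv (CH.dir w) (μ i)) F = It μ fun x => F fun i => w * x i
  | 0, _, F, w => by
    rw [It_zero, It_zero]
    congr 1
    funext i
    exact i.elim0
  | m + 1, μ, F, w => by
    rw [It_succ, It_succ, cv_apply, dir_apply]
    congr 1
    funext x
    rw [It_tl]
    congr 1
    funext y
    congr 1
    funext i
    refine Fin.cases ?_ (fun l => ?_) i
    · simp
    · simp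

end Pool.Agent.K4H70.CH
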