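import Pool.Agent.K4H70.CH.Main

/-!
Chains of small norm.
-/

set_option autoImplicit false
set_option linter.unusedSectionVars false

open scoped Classical

namespace Pool.Agent.K4H70.CH

open Pool.Agent.W907.SG (W cox)
open Pool.Agent.Q134.SV
open Pool.Agent.K4H70.SV

section Functionals

variable {Γ : Type}

/-- functionals on the cochains -/
abbrev Dm (Γ : Type) (m : ℕ) : Type := ((Fin m → Γ) → ℝ) →ₗ[ℝ] ℝ

/-- evaluation -/
def ev1 {m : ℕ} (x : Fin m → Γ) : Dm Γ m := LinearMap.proj x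

lemma ev1_apply {m : ℕ} (x : Fin m → Γ) (F : (Fin m → Γ) → ℝ) : ev1 x F = F x := rfl

/-- finite combinations of evaluations -/
def EV (Γ : Type) (m : ℕ) : Submodule ℝ (Dm Γ m) := Submodule.span ℝ (Set.range ev1)

/-- the iterated mean as a functional -/
def ItL {m : ℕ} (μ : Fin m → Mn Γ) : Dm Γ m where
  toFun := It μ
  map_add' F F' := It_add μ F F'
  map_smul' r F := It_smul μ r F

lemma ItL_apply {m : ℕ} (μ : Fin m → Mn Γ) (F : (Fin m → Γ) → ℝ) : ItL μ F = It μ F := rfl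

/-- the product of functionals -/
def comb {m : ℕ} (ν : Mn Γ) (T : Dm Γ m) : Dm Γ (m + 1) where
  toFun F := ν fun x => T fun y => F (Fin.cons x y)
  map_add' F F' := by
    rw [← map_add]
    congr 1
    funext x
    rw [Pi.add_apply, ← map_add]
    rfl
  map_smul' r F := by
    rw [← map_smul]
    congr 1
    funext x
    rw [Pi.smul_apply, ← map_smul]
    rfl

lemma comb_apply {m : ℕ} (ν : Mn Γ) (T : Dm Γ m) (F : (Fin (m + 1) → Γ) → ℝ) :
    comb ν T F = ν fun x => T fun y => F (Fin.cons x y) := rfl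

lemma comb_mem {m : ℕ} {ν : Mn Γ} {T : Dm Γ m} (hν : ν ∈ Sp (Set.univ : Set Γ))
    (hT : T ∈ EV Γ m) : comb ν T ∈ EV Γ (m + 1) := by
  refine Submodule.span_induction (p := fun ν _ => comb ν T ∈ EV Γ (m + 1)) ?_ ?_ ?_ ?_ hν
  · rintro _ ⟨w, _, rfl⟩
    refine Submodule.span_induction (p := fun T _ => comb (dir w) T ∈ EV Γ (m + 1)) ?_ ?_ ?_ ?_ hT
    · rintro _ ⟨y, rfl⟩
      exact Submodule.subset_span ⟨Fin.cons w y, rfl⟩
    · exact (EV Γ (m + 1)).zero_mem
    · intro x y _ _ hx hy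
      exact (EV Γ (m + 1)).add_mem hx hy
    · intro r x _ hx
      exact (EV Γ (m + 1)).smul_mem r hx
  · exact (EV Γ (m + 1)).zero_mem
  · intro x y _ _ hx hy
    exact (EV Γ (m + 1)).add_mem hx hy
  · intro r x _ hx
    exact (EV Γ (m + 1)).smul_mem r hx

lemma ItL_mem : ∀ {m : ℕ} {μ : Fin m → Mn Γ} (_ : ∀ i, μ i ∈ Sp (Set.univ : Set Γ)),
    ItL μ ∈ EV Γ m
  | 0, μ, _ => Submodule.subset_span ⟨Fin.elim0, by
      apply LinearMap.ext
      intro F
      rfl⟩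
  | m + 1, μ, h => by
    have : ItL μ = comb (μ 0) (ItL fun i => μ i.succ) := rfl
    rw [this]
    exact comb_mem (h 0) (ItL_mem fun i => h _)

/-- small sequences of finite combinations of evaluations -/
def Sm {m : ℕ} (Φ : ℕ → Dm Γ m) : Prop :=
  (∀ N, Φ N ∈ EV Γ m) ∧ ∃ K : ℝ, 0 ≤ K ∧ ∀ (N : ℕ) (F : (Fin m → Γ) → ℝ) (C : ℝ), 0 ≤ C →
    (∀ x, |F x| ≤ C) → |Φ N F| ≤ K / (N + 1) * C

lemma Sm.zero {m : ℕ} : Sm (fun _ => (0 : Dm Γ m)) :=
  ⟨fun _ => (EV Γ m).zero_mem, 0, le_rfl, fun N F C _ _ => by simp⟩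

lemma Sm.add {m : ℕ} {Φ Ψ : ℕ → Dm Γ m} (h : Sm Φ) (h' : Sm Ψ) : Sm fun N => Φ N + Ψ N := by
  obtain ⟨h1, K, hK, h2⟩ := h
  obtain ⟨h1', K', hK', h2'⟩ := h'
  refine ⟨fun N => (EV Γ m).add_mem (h1 N) (h1' N), K + K', by positivity, fun N F C hC hF => ?_⟩
  have e1 := h2 N F C hC hF
  have e2 := h2' N F C hC hF
  have e3 := abs_add_le (Φ N F) (Ψ N F)
  rw [LinearMap.add_apply, add_div, add_mul]
  linarith

lemma Sm.smul {m : ℕ} {Φ : ℕ → Dm Γ m} (r : ℝ) (h : Sm Φ) : Sm fun N => r • Φ N := by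
  obtain ⟨h1, K, hK, h2⟩ := h
  refine ⟨fun N => (EV Γ m).smul_mem r (h1 N), |r| * K, by positivity, fun N F C hC hF => ?_⟩
  rw [LinearMap.smul_apply, smul_eq_mul, abs_mul, mul_div_assoc, mul_assoc]
  exact mul_le_mul_of_nonneg_left (h2 N F C hC hF) (abs_nonneg r)

lemma Sm.sum {m : ℕ} {ι : Type} (s : Finset ι) {Φ : ι → ℕ → Dm Γ m} (h : ∀ i ∈ s, Sm (Φ i)) :
    Sm fun N => ∑ i ∈ s, Φ i N := by
  induction s using Finset.induction_on with
  | empty => simpa using Sm.zero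
  | insert x s hx ih =>
    have h1 := (h x (by simp)).add (ih fun i hi => h i (by simp [hi]))
    simp only [Finset.sum_insert hx]
    exact h1

/-- a functional of small norm which is a finite combination of evaluations is given by a chain of
small norm -/
lemma exists_chain {m : ℕ} {Φ : Dm Γ m} (h : Φ ∈ EV Γ m) {η : ℝ}
    (h' : ∀ F : (Fin m → Γ) → ℝ, (∀ x, |F x| ≤ 1) → |Φ F| ≤ η) :
    ∃ u : (Fin m → Γ) →₀ ℝ, (u.sum fun _ r => |r|) ≤ η ∧
      ∀ F : (Fin m → Γ) → ℝ, (u.sum fun x r => r * F x) = Φ F := by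
  obtain ⟨u, hu⟩ := Finsupp.mem_span_range_iff_exists_finsupp.1 h
  have h1 : ∀ F : (Fin m → Γ) → ℝ, (u.sum fun x r => r * F x) = Φ F := by
    intro F
    rw [← hu]
    unfold Finsupp.sum
    rw [LinearMap.sum_apply]
    rfl
  refine ⟨u, ?_, h1⟩
  have h2 := h' (fun x => SignType.sign (u x)) fun x => by
    rcases lt_trichotomy (u x) 0 with h | h | h
    · simp [h]
    · simp [h]
    · simp [h]
  rw [← h1] at h2
  refine le_trans (le_of_eq ?_) ((le_abs_self _).trans h2)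
  unfold Finsupp.sum
  refine Finset.sum_congr rfl fun x _ => ?_
  exact (self_mul_sign (u x)).symm

end Functionals

section Means

variable {Γ : Type} [Group Γ]

lemma cv_Sp {μ ν : Mn Γ} (hμ : μ ∈ Sp (Set.univ : Set Γ)) (hν : ν ∈ Sp (Set.univ : Set Γ)) :
    cv μ ν ∈ Sp (Set.univ : Set Γ) := by
  refine Submodule.span_induction (p := fun μ _ => cv μ ν ∈ Sp (Set.univ : Set Γ)) ?_ ?_ ?_ ?_ hμ
  · rintro _ ⟨a, _, rfl⟩
    refine Submodule.span_induction (p := fun ν _ => cv (dir a) ν ∈ Sp (Set.univ : Set Γ))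
      ?_ ?_ ?_ ?_ hν
    · rintro _ ⟨b, _, rfl⟩
      rw [dir_cv_dir]
      exact dir_Sp trivial
    · rw [cv_zero_right]
      exact (Sp _).zero_mem
    · intro x y _ _ hx hy
      rw [cv_add_right]
      exact (Sp _).add_mem hx hy
    · intro r x _ hx
      rw [cv_smul_right]
      exact (Sp _).smul_mem r hx
  · rw [cv_zero_left]
    exact (Sp _).zero_mem
  · intro x y _ _ hx hy
    rw [cv_add_left]
    exact (Sp _).add_mem hx hy
  · intro r x _ hx
    rw [cv_smul_left]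
    exact (Sp _).smul_mem r hx

lemma Sm_It {m : ℕ} {μ ν : Fin m → ℕ → Mn Γ} (hμ : ∀ i N, IsMean (μ i N))
    (hν : ∀ i N, IsMean (ν i N)) (hμ' : ∀ i N, μ i N ∈ Sp (Set.univ : Set Γ))
    (hν' : ∀ i N, ν i N ∈ Sp (Set.univ : Set Γ)) (h : ∀ i, Asy (μ i) (ν i)) :
    Sm fun N => ItL (fun i => μ i N) - ItL (fun i => ν i N) := by
  refine ⟨fun N => (EV Γ m).sub_mem (ItL_mem fun i => hμ' i N) (ItL_mem fun i => hν' i N), ?_⟩
  choose K hK0 hK using h
  refine ⟨m * ∑ i, K i, mul_nonneg (Nat.cast_nonneg m) (Finset.sum_nonneg fun i _ => hK0 i),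
    fun N F C hC hF => ?_⟩
  have h1 : ∀ i, Close ((∑ i, K i) / (N + 1)) (μ i N) (ν i N) := by
    intro i f D hf
    have hD : 0 ≤ D := (abs_nonneg _).trans (hf 1)
    refine (hK i N f D hf).trans (mul_le_mul_of_nonneg_right ?_ hD)
    exact div_le_div_of_nonneg_right (Finset.single_le_sum (fun j _ => hK0 j) (Finset.mem_univ i))
      (by positivity)
  have h2 := It_close (fun i => hμ i N) (fun i => hν i N) h1 hF
  rw [LinearMap.sub_apply, ItL_apply, ItL_apply]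
  refine h2.trans (le_of_eq ?_)
  ring

end Means

variable {V : Type} {G : SimpleGraph V}

lemma mm_Sp : ∀ (t : List (V ⊕ V × V)) (N : ℕ), mm G t N ∈ Sp (Set.univ : Set (W G))
  | [], _ => dir_Sp trivial
  | l :: t, N => by
    refine cv_Sp ?_ (mm_Sp t N)
    exact Submodule.span_mono (Set.image_mono (Set.subset_univ _)) (lm_Sp G l N)

lemma xs_Sp (σ : Finset (V ⊕ V × V)) (N : ℕ) : xs G σ N ∈ Sp (Set.univ : Set (W G)) := mm_Sp _ _

/-- the first face, as a functional -/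
lemma first_face' {n : ℕ} {l : V ⊕ V × V} {y : Fin n → V ⊕ V × V}
    (h : GT G (Fin.cons l y : Fin (n + 1) → V ⊕ V × V)) :
    ∃ Φ : ℕ → Dm (W G) (n + 1), Sm Φ ∧ ∀ (N : ℕ) (c : (Fin (n + 1) → W G) → ℝ),
      (∀ (s : V) (x : Fin (n + 1) → W G), c (fun i => gen G s * x i) = - c x) →
      Φ N c = It (fun k : Fin (n + 1) => xs G (fs (Fin.cons l y : Fin (n + 1) → V ⊕ V × V)
        k.succ) N) c - (if l.isLeft then (-1 : ℝ) else 0) * It (fl G y N) c := by
  have h0 : ∀ k : Fin (n + 1), fs (Fin.cons l y : Fin (n + 1) → V ⊕ V × V) k.succ =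
      insert l (fs y k) := fun k => fs_cons_succ l y k
  have hca : ∀ k : Fin (n + 1), Ca G (insert l (fs y k)) := fun k => by
    rw [← h0]; exact GT_ca h _
  have hgen : ∀ (s : V) (μ : Fin (n + 1) → Mn (W G)) (c : (Fin (n + 1) → W G) → ℝ),
      (∀ (s : V) (x : Fin (n + 1) → W G), c (fun i => gen G s * x i) = - c x) →
      It (fun i => cv (dir (gen G s)) (μ i)) c = - It μ c := by
    intro s μ c hg
    rw [It_tl]
    simp only [hg]
    have := It_smul μ (-1) c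
    simp only [neg_mul, one_mul] at this
    exact this
  simp only [h0]
  rcases l with s | p
  · refine ⟨_, Sm_It (μ := fun (k : Fin (n + 1)) N => xs G (insert (Sum.inl s) (fs y k)) N)
      (ν := fun k N => cv (dir (gen G s)) (fl G y N k)) (fun _ _ => xs_mean _ _)
      (fun _ _ => (IsMean.dir _).cv (xs_mean _ _)) (fun _ _ => xs_Sp _ _)
      (fun _ _ => cv_Sp (dir_Sp trivial) (xs_Sp _ _))
      (fun k => xs_insert (GT_head h k) (hca k)), fun N c hg => ?_⟩
    rw [LinearMap.sub_apply, ItL_apply, ItL_apply, hgen s (fl G y N) c hg]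
    simp
  · refine ⟨_, (Sm_It (μ := fun (k : Fin (n + 1)) N => cv (dir (gen G p.1))
        (xs G (insert (Sum.inr p) (fs y k)) N))
      (ν := fun k N => xs G (insert (Sum.inr p) (fs y k)) N)
      (fun _ _ => (IsMean.dir _).cv (xs_mean _ _)) (fun _ _ => xs_mean _ _)
      (fun _ _ => cv_Sp (dir_Sp trivial) (xs_Sp _ _)) (fun _ _ => xs_Sp _ _)
      (fun k => xs_pair (by simp) (hca k))).smul (-1 / 2), fun N c hg => ?_⟩
    rw [LinearMap.smul_apply, LinearMap.sub_apply, ItL_apply, ItL_apply,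
      hgen p.1 (fun k => xs G (insert (Sum.inr p) (fs y k)) N) c hg]
    simp only [Sum.isLeft_inr, Bool.false_eq_true, if_false, zero_mul, sub_zero, smul_eq_mul]
    ring

variable [Fintype V]

/-- **Theorem.** A cycle which bounds in the complex of labels is represented by chains of
arbitrarily small norm. -/
theorem small_chains {n : ℕ} {z : (Fin n → V) → ℝ}
    (hzs : ∀ s, z s ≠ 0 → ∀ i j, i ≠ j → G.Adj (s i) (s j))
    {B : (Fin (n + 1) → V ⊕ V × V) → ℝ} (hB : Alt B) (hB' : ∀ v, B v ≠ 0 → GT G v)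
    (hzB : ∀ y, ∑ x, B (Fin.cons x y) = zh z y) {δ : ℝ} (hδ : 0 < δ) :
    ∃ u : (Fin (n + 1) → W G) →₀ ℝ, (u.sum fun _ r => |r|) < δ ∧
      ∀ c : (Fin (n + 1) → W G) → ℝ,
        (∀ (s : V) (x : Fin (n + 1) → W G), c (fun i => gen G s * x i) = - c x) →
        (∀ x : Fin (n + 2) → W G, cobd c x = 0) →
        (u.sum fun x r => r * c x) = pair (gen G) z c := by
  -- the functionals
  have h1 : ∀ (y : Fin n → V ⊕ V × V) (l : V ⊕ V × V),
      ∃ Φ : ℕ → Dm (W G) (n + 1), Sm Φ ∧ ∀ (N : ℕ) (c : (Fin (n + 1) → W G) → ℝ),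
      (∀ (s : V) (x : Fin (n + 1) → W G), c (fun i => gen G s * x i) = - c x) →
      Φ N c = wt l * ww y * B (Fin.cons l y) *
        (It (fun k : Fin (n + 1) => xs G (fs (Fin.cons l y : Fin (n + 1) → V ⊕ V × V)
        k.succ) N) c - (if l.isLeft then (-1 : ℝ) else 0) * It (fl G y N) c) := by
    intro y l
    by_cases h0 : B (Fin.cons l y) = 0
    · refine ⟨_, Sm.zero, fun N c _ => ?_⟩
      rw [h0, LinearMap.zero_apply]
      ring
    · obtain ⟨Φ, h2, h3⟩ := first_face' (hB' _ h0)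
      refine ⟨_, h2.smul (wt l * ww y * B (Fin.cons l y)), fun N c hc => ?_⟩
      rw [LinearMap.smul_apply, h3 N c hc, smul_eq_mul]
  choose Φ hΦ hΦ' using h1
  have h2 : ∀ s : Fin n → V, ∃ Ψ : ℕ → Dm (W G) (n + 1), Sm Ψ ∧
      ∀ (N : ℕ) (c : (Fin (n + 1) → W G) → ℝ),
        Ψ N c = z s * (It (fl G (Sum.inl ∘ s) N) c - c (xx G s)) := by
    intro s
    by_cases h0 : z s = 0
    · refine ⟨_, Sm.zero, fun N c => ?_⟩
      rw [h0, LinearMap.zero_apply, zero_mul]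
    · refine ⟨_, (Sm_It (μ := fun k N => fl G (Sum.inl ∘ s) N k)
        (ν := fun k _ => dir (xx G s k)) (fun _ _ => fl_mean _ _ _) (fun _ _ => IsMean.dir _)
        (fun _ _ => xs_Sp _ _) (fun _ _ => dir_Sp trivial)
        (xs_vert s (hzs s h0))).smul (z s), fun N c => ?_⟩
      rw [LinearMap.smul_apply, LinearMap.sub_apply, ItL_apply, ItL_apply, It_dir, smul_eq_mul]
  choose Ψ hΨ hΨ' using h2
  have hS : Sm fun N => (1 / 2 : ℝ) • (∑ y, ∑ l, Φ y l N) + (-1 : ℝ) • ∑ s, Ψ s N :=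
    ((Sm.sum Finset.univ fun y _ => Sm.sum Finset.univ fun l _ => hΦ y l).smul (1 / 2)).add
      ((Sm.sum Finset.univ fun s _ => hΨ s).smul (-1))
  have hval : ∀ (N : ℕ) (c : (Fin (n + 1) → W G) → ℝ),
      (∀ (s : V) (x : Fin (n + 1) → W G), c (fun i => gen G s * x i) = - c x) →
      (∀ x : Fin (n + 2) → W G, cobd c x = 0) →
      ((1 / 2 : ℝ) • (∑ y, ∑ l, Φ y l N) + (-1 : ℝ) • ∑ s, Ψ s N) c = pair (gen G) z c := by
    intro N c hg hc
    have e1 := face_identity (G := G) hB hzB hc N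
    simp only [LinearMap.add_apply, LinearMap.smul_apply, LinearMap.sum_apply, smul_eq_mul,
      hΨ' _ N c]
    have e2 : ∑ y, ∑ l, (Φ y l N) c = 2 * ∑ s, z s * It (fl G (Sum.inl ∘ s) N) c := by
      rw [← e1]
      exact Finset.sum_congr rfl fun y _ => Finset.sum_congr rfl fun l _ => hΦ' y l N c hg
    rw [e2]
    have e3 : pair (gen G) z c = ∑ s, z s * c (xx G s) := rfl
    rw [e3]
    simp only [mul_sub, Finset.sum_sub_distrib]
    ring
  obtain ⟨hEV, K, hK, hb⟩ := hS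
  obtain ⟨N, hN⟩ := exists_nat_gt (K / δ)
  obtain ⟨u, hu, hu'⟩ := exists_chain (hEV N) (η := K / (N + 1)) fun F hF => by
    have := hb N F 1 zero_le_one hF
    rwa [mul_one] at this
  refine ⟨u, lt_of_le_of_lt hu ?_, fun c hg hc => ?_⟩
  · rw [div_lt_iff₀ hδ] at hN
    rw [div_lt_iff₀ (by positivity)]
    nlinarith
  · rw [hu', hval N c hg hc]

end Pool.Agent.K4H70.CH
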