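import Pool.Agent.K4H70.CH.Norm
import Pool.Agent.K4H70.SC.Stk

/-!
The fundamental class of a subgroup of finite index.
-/

set_option autoImplicit false
set_option linter.unusedSectionVars false

open scoped Classical

namespace Pool.Agent.K4H70.CH

open Pool.Agent.W907.SG (W cox)
open Pool.Agent.Q134.SV
open Pool.Agent.K4H70.SV
open Pool.Agent.K4H70.SC

variable {V : Type} [Fintype V] {G : SimpleGraph V}

/-- The class `α` in the real homology of degree `n` of the group `Γ`, given by its values on the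
homogeneous `n`-cocycles, is represented by chains of the bar complex of arbitrarily small `ℓ¹`-norm. -/
def NormZero {Γ : Type} [Group Γ] (n : ℕ) (α : ((Fin (n + 1) → Γ) → ℝ) → ℝ) : Prop :=
  ∀ δ : ℝ, 0 < δ → ∃ u : (Fin (n + 1) → Γ) →₀ ℝ, (u.sum fun _ r => |r|) < δ ∧
    ∀ c : (Fin (n + 1) → Γ) → ℝ, (∀ (h : Γ) (g : Fin (n + 1) → Γ), c (fun i => h * g i) = c g) →
      (∀ g : Fin (n + 2) → Γ, cobd c g = 0) → (u.sum fun g r => r * c g) = α c

/-- The class of a cycle `z` of the flag complex of `G` in the homology of the subgroup `H`: the sum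
over the right cosets `H x` and the simplices `s` of `z`, with the sign of `x`, of the simplices
`x, x s₀, x s₀ s₁, …` (mapped to `H` by an equivariant map). -/
noncomputable def fund {n : ℕ} (G : SimpleGraph V) (H : Subgroup (W G)) (z : (Fin n → V) → ℝ)
    (c : (Fin (n + 1) → H) → ℝ) : ℝ :=
  ∑ᶠ q : Quotient (QuotientGroup.rightRel H), ((par G q.out : ℤ) : ℝ) *
    ∑ s : Fin n → V, z s * c fun j => toSub H (q.out * Fin.partialProd (gen G ∘ s) j)

section

variable {H : Subgroup (W G)} (hH : H.index ≠ 0) (hε : H ≤ (par G).ker)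

include hH in
lemma rc_finite : Finite (RC H) := by
  have : H.FiniteIndex := ⟨hH⟩
  have h1 : Finite (W G ⧸ H) := Subgroup.finite_quotient_of_finiteIndex
  exact Finite.of_equiv _ (QuotientGroup.quotientRightRelEquivQuotientLeftRel H).symm

include hε in
lemma par_mul (h : H) (x : W G) : par G (h * x) = par G x := by
  rw [map_mul, MonoidHom.mem_ker.1 (hε h.2), one_mul]

lemma par_sq (x : W G) : ((par G x : ℤ) : ℝ) * ((par G x : ℤ) : ℝ) = 1 := by
  rcases Int.units_eq_one_or (par G x) with h | h <;> rw [h] <;> simp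

include hε in
/-- the orientation of the Davis manifold -/
lemma ori_davis {n : ℕ} {z : (Fin n → V) → ℝ} (hz : IsCyc n G z) :
    Ori G n Set.univ H fun x s => ((par G x : ℤ) : ℝ) * z s := by
  refine ⟨fun x => ⟨?_, ?_, ?_⟩, fun x s _ => ⟨trivial, fun _ => trivial⟩, fun h x => ?_,
    fun x s i => ?_⟩
  · intro v i j hij
    rw [hz.alt v i j hij]
    ring
  · intro v hv
    exact hz.supp v (right_ne_zero_of_mul hv)
  · intro v i
    rw [← Finset.mul_sum, hz.cyc v i, mul_zero]
  · rw [par_mul hε]
  · rw [map_mul, par_gen]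
    simp

include hH in
lemma fin_all : (rc H '' (Set.univ : Set (W G))).Finite := by
  have := rc_finite hH
  exact Set.toFinite _

include hH hε

/-- from the subgroup to the group -/
lemma fund_res {m : ℕ} {z : (Fin (m + 1) → V) → ℝ} (hz : IsCyc (m + 1) G z)
    {c : (Fin (m + 2) → W G) → ℝ}
    (hg : ∀ (s : V) (x : Fin (m + 2) → W G), c (fun i => gen G s * x i) = - c x)
    (hc : ∀ x : Fin (m + 3) → W G, cobd c x = 0) :
    fund G H z (fun g => c fun i => (g i : W G)) = Nat.card (RC H) * pair (gen G) z c := by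
  have hfin := rc_finite hH
  have hcw : ∀ (w : W G) (x : Fin (m + 2) → W G), c (fun i => w * x i) =
      ((par G w : ℤ) : ℝ) * c x := fun w x => equiv_of_gen G hg w x
  have hcH : ∀ (h : H) (x : Fin (m + 2) → W G), c (fun i => (h : W G) * x i) = c x := by
    intro h x
    rw [hcw, MonoidHom.mem_ker.1 (hε h.2)]
    simp
  let r : W G → W G := fun x => (toSub H x : W G)
  have hr : ∀ (h : H) (x : W G), r (h * x) = h * r x := by
    intro h x
    simp only [r, toSub_mul, Subgroup.coe_mul]
  -- the prism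
  have h1 : ∀ x : Fin (m + 2) → W G, cobd (pri r (m + 1) c) x = c (r ∘ x) - c x := by
    intro x
    have e1 := prism r (m + 1) c x
    have e2 : pri r (m + 2) (cobd c) x = 0 := by
      have : cobd c = fun _ => 0 := funext hc
      rw [this]
      exact pri_zero r (m + 2) x
    rw [e2, add_zero] at e1
    exact e1
  have h2 : ∀ (h : H) (g : Fin (m + 1) → W G), pri r (m + 1) c (fun i => (h : W G) * g i) =
      pri r (m + 1) c g := by
    intro h g
    exact pri_equiv r (fun x => (h : W G) * x) (fun x => hr h x) (m + 1) c c (fun g' => hcH h g') g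
  have h3 := PP_cobd (ori_davis hε hz) (fin_all hH) h2
  unfold PP II at h3
  have h4 : ∀ q : RC H, ∑ s : Fin (m + 1) → V, ((par G q.out : ℤ) : ℝ) * z s *
      cobd (pri r (m + 1) c) (fun j => q.out * xx G s j) =
      ((par G q.out : ℤ) : ℝ) * (∑ s : Fin (m + 1) → V, z s *
        c (fun j => (toSub H (q.out * Fin.partialProd (gen G ∘ s) j) : W G))) -
      pair (gen G) z c := by
    intro q
    have e1 : ∀ s : Fin (m + 1) → V, ((par G q.out : ℤ) : ℝ) * z s *
        cobd (pri r (m + 1) c) (fun j => q.out * xx G s j) =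
        ((par G q.out : ℤ) : ℝ) * (z s *
        c (fun j => (toSub H (q.out * Fin.partialProd (gen G ∘ s) j) : W G))) -
        z s * c (Fin.partialProd (gen G ∘ s)) := by
      intro s
      rw [h1, hcw q.out (xx G s)]
      have e2 : c (r ∘ fun j => q.out * xx G s j) =
        c (fun j => (toSub H (q.out * Fin.partialProd (gen G ∘ s) j) : W G)) := rfl
      have e3 : c (xx G s) = c (Fin.partialProd (gen G ∘ s)) := rfl
      rw [e2, e3]
      linear_combination (- z s * c (Fin.partialProd (gen G ∘ s))) * par_sq (G := G) q.out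
    rw [Finset.sum_congr rfl fun s _ => e1 s, Finset.sum_sub_distrib, ← Finset.mul_sum]
    rfl
  simp only [h4] at h3
  have : Fintype (RC H) := Fintype.ofFinite _
  rw [finsum_eq_sum_of_fintype, Finset.sum_sub_distrib, Finset.sum_const, nsmul_eq_mul] at h3
  unfold fund
  rw [finsum_eq_sum_of_fintype, Nat.card_eq_fintype_card, ← Finset.card_univ]
  linarith

omit hH in
/-- the induced cocycle is twisted -/
lemma twisted_ind [Fintype (RC H)] {n : ℕ} {c : (Fin (n + 1) → H) → ℝ}
    (hc : ∀ (h : H) (g : Fin (n + 1) → H), c (fun i => h * g i) = c g) (s : V)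
    (x : Fin (n + 1) → W G) :
    ∑ q : RC H, ((par G q.out : ℤ) : ℝ) * c (fun i => toSub H (q.out * (gen G s * x i))) =
      - ∑ q : RC H, ((par G q.out : ℤ) : ℝ) * c (fun i => toSub H (q.out * x i)) := by
  rw [← Equiv.sum_comp (tr H (gen G s)) fun q : RC H =>
    ((par G q.out : ℤ) : ℝ) * c (fun i => toSub H (q.out * x i)), ← Finset.sum_neg_distrib]
  refine Finset.sum_congr rfl fun q _ => ?_
  have h1 : tr H (gen G s) q = rc H (q.out * gen G s) := by
    conv_lhs => rw [← rc_out q]
    rfl
  obtain ⟨h, e⟩ := rc_eq.1 (rc_out (tr H (gen G s) q) |>.trans h1)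
  have e1 : ((par G q.out : ℤ) : ℝ) = - ((par G (tr H (gen G s) q).out : ℤ) : ℝ) := by
    have e2 : par G (q.out * gen G s) = par G (tr H (gen G s) q).out := by
      rw [e, par_mul hε]
    rw [map_mul, par_gen] at e2
    rw [← e2]
    simp
  have e3 : c (fun i => toSub H (q.out * (gen G s * x i))) =
      c (fun i => toSub H ((tr H (gen G s) q).out * x i)) := by
    rw [← hc h fun i => toSub H ((tr H (gen G s) q).out * x i)]
    congr 1
    funext i
    rw [← toSub_mul, ← mul_assoc, ← mul_assoc, e]
  rw [e1, e3]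
  ring

omit hH hε in
lemma cobd_ind [Fintype (RC H)] {n : ℕ} {c : (Fin (n + 1) → H) → ℝ}
    (hc : ∀ g : Fin (n + 2) → H, cobd c g = 0) (x : Fin (n + 2) → W G) :
    cobd (fun x : Fin (n + 1) → W G =>
      ∑ q : RC H, ((par G q.out : ℤ) : ℝ) * c (fun i => toSub H (q.out * x i))) x = 0 := by
  unfold cobd
  simp only [Finset.mul_sum]
  rw [Finset.sum_comm]
  refine Finset.sum_eq_zero fun q _ => ?_
  have h1 := hc fun i => toSub H (q.out * x i)
  unfold cobd at h1
  calc ∑ i : Fin (n + 2), (-1 : ℝ) ^ (i : ℕ) * (((par G q.out : ℤ) : ℝ) *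
        c (fun j => toSub H (q.out * (x ∘ i.succAbove) j)))
      = ((par G q.out : ℤ) : ℝ) * ∑ i : Fin (n + 2), (-1 : ℝ) ^ (i : ℕ) *
        c ((fun j => toSub H (q.out * x j)) ∘ i.succAbove) := by
        rw [Finset.mul_sum]
        refine Finset.sum_congr rfl fun i _ => ?_
        have : (fun j => toSub H (q.out * (x ∘ i.succAbove) j)) =
          (fun j => toSub H (q.out * x j)) ∘ i.succAbove := rfl
        rw [this]
        ring
    _ = 0 := by rw [h1, mul_zero]

end

end Pool.Agent.K4H70.CH
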